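import Pool.Agent.Lib.MP_a349b4_lc.LG.Defs

/-! One memory image that answers bounded-length reachability queries for all bounds up to `K`. -/

set_option autoImplicit false

namespace Pool.Agent.Lib.MP_a349b4_lc.DZ

open Pool.Agent.Lib.MP_a349b4_lc.LG

/-- The memory image `D` consists of `w`-bit words, and for every query `(u, v, k)` with `k ≤ K`,
given in registers `0`, `1` and `2` (all other registers `0`), and every initial content `W` of
the working memory, the program `P` stops after at most `T` instructions and answers `true`
exactly when `v` is reachable from `u` with at most `k` edges. -/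
def AnswersUpTo {n : ℕ} (P : List Instr) (w K : ℕ) (E : Finset (Fin n × Fin n)) (D : List ℕ)
    (T : ℕ) : Prop :=
  (∀ x ∈ D, x < 2 ^ w) ∧ ∀ (u v : Fin n) (k : ℕ) (W : ℕ → ℕ), k ≤ K → ∃ b : Bool,
    run P w D T 0
      (fun i => if i = 0 then (u : ℕ) else if i = 1 then (v : ℕ) else if i = 2 then k else 0) W =
        some b ∧ (b = true ↔ Reach E k u v)

end Pool.Agent.Lib.MP_a349b4_lc.DZ
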