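import Mathlib

/-!
Greedy zero sets with budgets: a state `y * L + a` is a vertex `y` together with the part `a < L`
of the budget already used. The recursive query `qry` and its correctness.
-/

set_option autoImplicit false

namespace Pool.Agent.Lib.MP_a349b4_lc.DZ

open Finset

/-- A digraph on `0, …, N - 1` with adjacency lists in both directions. -/
structure Gr where
  N : ℕ
  adj : Bool → ℕ → List ℕ
  lt : ∀ d x y, y ∈ adj d x → y < N
  symm : ∀ d x y, y ∈ adj d x → x ∈ adj (!d) y

/-- The scan of the work list: `fuel`, position, list, answer so far. -/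
def loop (f1 f2 : ℕ → Bool) (adj : ℕ → List ℕ) (lay : ℕ → ℕ) (lim X : ℕ) :
    ℕ → ℕ → List ℕ → Bool → Bool
  | 0, _, _, r => r
  | fuel + 1, i, L, r =>
    if i < L.length then
      if lay (L.getD i 0) ≤ lim ∧ L.getD i 0 ∉ L.take i ∧ f1 (L.getD i 0) = false then
        if L.length + (adj (L.getD i 0)).length ≤ X + 1 then
          loop f1 f2 adj lay lim X fuel (i + 1) (L ++ adj (L.getD i 0)) (r || f2 (L.getD i 0))
        else loop f1 f2 adj lay lim X fuel (i + 1) L true
      else loop f1 f2 adj lay lim X fuel (i + 1) L (r || f2 (L.getD i 0))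
    else r

/-- The states one step after `z`. -/
def nx (G : Gr) (L : ℕ) (d : Bool) (z : ℕ) : List ℕ :=
  (G.adj d (z / L)).map (fun y => y * L + (z % L + 1))

/-- The state seen from the other direction. -/
def flp (L z : ℕ) : ℕ := z / L * L + (L - 1 - z % L)

/-- The query at depth `j`, direction `d`, node `idx`, state `x`. -/
def qry (G : Gr) (L : ℕ) (Lf : ℕ → List ℕ) (X : ℕ) : ℕ → Bool → ℕ → ℕ → Bool
  | 0, _, idx, x => decide (∃ e ∈ Lf idx, x ≤ e ∧ e < x / L * L + L)
  | j + 1, d, idx, x =>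
    loop (fun z => qry G L Lf X j (!d) (2 * idx) (flp L z)) (qry G L Lf X j d (2 * idx + 1))
      (nx G L d) (· % L) (min (x % L + (2 ^ j - 1)) (L - 2)) X (X + 1) 0 [x] false

/-- Walks with exactly `l` steps. -/
inductive Wk (G : Gr) (d : Bool) : ℕ → ℕ → ℕ → Prop
  | nil (x : ℕ) : Wk G d 0 x x
  | cons {l x y z : ℕ} : y ∈ G.adj d x → Wk G d l y z → Wk G d (l + 1) x z

variable {G : Gr} {d : Bool} {L : ℕ}

theorem Wk.trans {l l' x y z : ℕ} (h : Wk G d l x y) (h' : Wk G d l' y z) :
    Wk G d (l + l') x z := by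
  induction h with
  | nil x => simpa using h'
  | @cons l x y w h1 _ ih =>
    have e : l + 1 + l' = l + l' + 1 := by omega
    rw [e]
    exact Wk.cons h1 (ih h')

theorem Wk.snoc {l x y z : ℕ} (h : Wk G d l x y) (h' : z ∈ G.adj d y) : Wk G d (l + 1) x z :=
  h.trans (Wk.cons h' (Wk.nil z))

theorem Wk.rev {l x y : ℕ} (h : Wk G d l x y) : Wk G (!d) l y x := by
  induction h with
  | nil x => exact Wk.nil x
  | cons h1 _ ih => exact ih.snoc (G.symm _ _ _ h1)

theorem Wk.rev' {l x y : ℕ} (h : Wk G (!d) l x y) : Wk G d l y x := by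
  have := h.rev
  rwa [Bool.not_not] at this

theorem Wk.lt {l x y : ℕ} (h : Wk G d l x y) (hx : x < G.N) : y < G.N := by
  induction h with
  | nil x => exact hx
  | cons h1 _ ih => exact ih (G.lt _ _ _ h1)

theorem code_div {y a : ℕ} (h : a < L) : (y * L + a) / L = y := by
  rw [Nat.add_comm, Nat.add_mul_div_right _ _ (by omega), Nat.div_eq_of_lt h, Nat.zero_add]

theorem code_mod {y a : ℕ} (h : a < L) : (y * L + a) % L = a := by
  rw [Nat.add_comm, Nat.add_mul_mod_self_right, Nat.mod_eq_of_lt h]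

/-- From `x` with `a` used, some `h` is reached with less than `th h` used. -/
def Hit (G : Gr) (d : Bool) (th : ℕ → ℕ) (x a : ℕ) : Prop :=
  ∃ l h, Wk G d l x h ∧ a + l < th h

/-- The same in at most `t` steps. -/
def HitIn (G : Gr) (d : Bool) (t : ℕ) (th : ℕ → ℕ) (x a : ℕ) : Prop :=
  ∃ l ≤ t, ∃ h, Wk G d l x h ∧ a + l < th h

/-- `th'` describes a greedy zero set for `th`. -/
def Greedy (G : Gr) (L X : ℕ) (d : Bool) (t : ℕ) (th th' : ℕ → ℕ) : Prop :=
  (∀ y c, c < L → Hit G (!d) th' y (L - 1 - c) → ¬ Hit G d th y c) ∧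
  ∀ u < G.N, ∀ a, ¬ Hit G d th u a → ∀ Sv : Finset ℕ,
    (∀ z ∈ Sv, (∃ l ≤ t, Wk G d l u (z / L) ∧ z % L = a + l) ∧
      ¬ HitIn G (!d) t th' (z / L) (L - 1 - z % L)) → ∑ z ∈ Sv, (G.adj d (z / L)).length ≤ X

/-- The leaves below node `idx` hold `th` and the greedy sets. -/
def Good (G : Gr) (L : ℕ) (Lf : ℕ → List ℕ) (X : ℕ) : ℕ → Bool → ℕ → (ℕ → ℕ) → Prop
  | 0, _, idx, th => ∀ y a, a < L → ((∃ e ∈ Lf idx, y * L + a ≤ e ∧ e < y * L + L) ↔ a < th y)
  | j + 1, d, idx, th => ∃ th', (∀ y, th' y ≤ L) ∧ Greedy G L X d (2 ^ j - 1) th th' ∧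
      Good G L Lf X j (!d) (2 * idx) th' ∧ Good G L Lf X j d (2 * idx + 1) th

/-- The invariant of the scan. -/
structure Inv (G : Gr) (L : ℕ) (d : Bool) (X t : ℕ) (th th' : ℕ → ℕ) (x i : ℕ) (A : List ℕ)
    (r : Bool) : Prop where
  len : A.length ≤ X + 1
  le : i ≤ A.length
  mem : x ∈ A
  wk : ∀ z ∈ A, ∃ l, Wk G d l (x / L) (z / L) ∧ z % L = x % L + l
  snd : r = true → Hit G d th (x / L) (x % L)
  sv : ∃ Sv : Finset ℕ, (∀ z ∈ Sv, z ∈ A.take i ∧
    (∃ l ≤ t, Wk G d l (x / L) (z / L) ∧ z % L = x % L + l) ∧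
      ¬ HitIn G (!d) t th' (z / L) (L - 1 - z % L)) ∧
    A.length = 1 + ∑ z ∈ Sv, (G.adj d (z / L)).length
  cmp : r = false → ∀ z ∈ A.take i, ¬ HitIn G d t th (z / L) (z % L) ∧
    (z % L ≤ min (x % L + t) (L - 2) → ¬ Hit G d th (z / L) (z % L) ∨ ∀ w ∈ nx G L d z, w ∈ A)

theorem Inv.fin {X t : ℕ} {th th' : ℕ → ℕ} {x i : ℕ} {A : List ℕ} {r : Bool}
    (h : Inv G L d X t th th' x i A r) (hi : A.length ≤ i) (hth : ∀ y, th y ≤ L)
    (hx : HitIn G d (2 * t + 1) th (x / L) (x % L)) : r = true := by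
  by_contra hr
  have hr' : r = false := by simpa using hr
  have hc := h.cmp hr'
  rw [List.take_of_length_le hi] at hc
  obtain ⟨l, hl, a, hw, ha⟩ := hx
  have hL := hth a
  have key : ∀ s l z, z ∈ A → Wk G d l (z / L) a → z % L + l < th a → l ≤ t + s →
      z % L + s ≤ x % L + t + 1 → False := by
    intro s
    induction s with
    | zero => intro l z hz hw h1 hl _; exact (hc z hz).1 ⟨l, hl, a, hw, h1⟩
    | succ s ih =>
      intro l z hz hw h1 hl hlay
      by_cases hlt : l ≤ t
      · exact (hc z hz).1 ⟨l, hlt, a, hw, h1⟩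
      · rcases (hc z hz).2 (le_min (by omega) (by omega)) with h2 | h2
        · exact h2 ⟨l, a, hw, h1⟩
        · cases hw with
          | nil => omega
          | @cons l' _ y _ h3 h4 =>
            have hlt' : z % L + 1 < L := by omega
            refine ih l' (y * L + (z % L + 1)) (h2 _ (List.mem_map.2 ⟨y, h3, rfl⟩)) ?_ ?_
              (by omega) ?_
            · rwa [code_div hlt']
            · rw [code_mod hlt']; omega
            · rw [code_mod hlt']; omega
  exact key (t + 1) l x h.mem hw ha (by omega) (by omega)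

theorem take_succ_mem {A : List ℕ} {i y : ℕ} (hi : i < A.length) :
    y ∈ A.take (i + 1) ↔ y ∈ A.take i ∨ y = A.getD i 0 := by
  rw [List.take_add_one, List.mem_append, List.getD_eq_getElem _ _ hi, List.getElem?_eq_getElem hi]
  simp

theorem loop_spec {X t : ℕ} {th th' : ℕ → ℕ} {x : ℕ} (hL : 2 ≤ L) (hx : x / L < G.N)
    {f1 f2 : ℕ → Bool} (hth : ∀ y, th y ≤ L) (hg : Greedy G L X d t th th')
    (h1 : ∀ z, z / L < G.N → (f1 z = true → Hit G (!d) th' (z / L) (L - 1 - z % L)) ∧
      (HitIn G (!d) t th' (z / L) (L - 1 - z % L) → f1 z = true))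
    (h2 : ∀ z, z / L < G.N → (f2 z = true → Hit G d th (z / L) (z % L)) ∧
      (HitIn G d t th (z / L) (z % L) → f2 z = true)) :
    ∀ fuel i A r, Inv G L d X t th th' x i A r → X + 1 ≤ i + fuel →
      (loop f1 f2 (nx G L d) (· % L) (min (x % L + t) (L - 2)) X fuel i A r = true →
        Hit G d th (x / L) (x % L)) ∧
      (HitIn G d (2 * t + 1) th (x / L) (x % L) →
        loop f1 f2 (nx G L d) (· % L) (min (x % L + t) (L - 2)) X fuel i A r = true) := by
  intro fuel
  induction fuel with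
  | zero =>
    intro i A r h hf
    have := h.len
    exact ⟨h.snd, h.fin (by omega) hth⟩
  | succ fuel ih =>
    intro i A r h hf
    rw [loop]
    by_cases hi : i < A.length
    swap
    · rw [if_neg hi]
      exact ⟨h.snd, h.fin (by omega) hth⟩
    rw [if_pos hi]
    obtain ⟨y, hy⟩ : ∃ y, y = A.getD i 0 := ⟨_, rfl⟩
    have hts : ∀ z, z ∈ A.take (i + 1) ↔ z ∈ A.take i ∨ z = y := fun z => hy ▸ take_succ_mem hi
    rw [← hy]
    have hyL : y ∈ A := List.mem_of_mem_take ((hts y).2 (Or.inr rfl))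
    obtain ⟨ly, hly, hla⟩ := h.wk y hyL
    have hyN : y / L < G.N := hly.lt hx
    have hsnd : (r || f2 y) = true → Hit G d th (x / L) (x % L) := by
      intro hh
      rcases Bool.or_eq_true_iff.1 hh with hh | hh
      · exact h.snd hh
      · obtain ⟨l, a, hw, ha⟩ := (h2 y hyN).1 hh
        exact ⟨_, a, hly.trans hw, by omega⟩
    have hno : (r || f2 y) = false → r = false ∧ ¬ HitIn G d t th (y / L) (y % L) := by
      intro hh
      obtain ⟨a1, a2⟩ := Bool.or_eq_false_iff.1 hh
      refine ⟨a1, fun hc => ?_⟩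
      rw [(h2 y hyN).2 hc] at a2
      exact absurd a2 (by simp)
    obtain ⟨Sv, hS, hlen⟩ := h.sv
    have hnx : (nx G L d y).length = (G.adj d (y / L)).length := List.length_map _
    by_cases hc : y % L ≤ min (x % L + t) (L - 2) ∧ y ∉ A.take i ∧ f1 y = false
    · rw [if_pos hc]
      obtain ⟨c1, c2, c3⟩ := hc
      obtain ⟨c0, c1'⟩ := le_min_iff.1 c1
      have hlt : ly ≤ t := by omega
      have hnT : ¬ HitIn G (!d) t th' (y / L) (L - 1 - y % L) := fun hh => by
        rw [(h1 y hyN).2 hh] at c3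
        exact absurd c3 (by simp)
      have hyS : y ∉ Sv := fun hh => c2 (hS y hh).1
      by_cases hcap : A.length + (nx G L d y).length ≤ X + 1
      · rw [if_pos hcap]
        have htk : (A ++ nx G L d y).take (i + 1) = A.take (i + 1) :=
          List.take_append_of_le_length (by omega)
        refine ih _ _ _ ⟨by simpa using hcap, by simp; omega, List.mem_append_left _ h.mem, ?_,
          hsnd, ⟨insert y Sv, ?_, ?_⟩, ?_⟩ (by omega)
        · intro z hz
          rcases List.mem_append.1 hz with hz | hz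
          · exact h.wk z hz
          · obtain ⟨w, hw, rfl⟩ := List.mem_map.1 hz
            have hlt' : y % L + 1 < L := by omega
            rw [code_div hlt', code_mod hlt']
            exact ⟨_, hly.snoc hw, by omega⟩
        · intro z hz
          rw [htk, hts]
          rcases mem_insert.1 hz with rfl | hz
          · exact ⟨Or.inr rfl, ⟨ly, hlt, hly, hla⟩, hnT⟩
          · exact ⟨Or.inl (hS z hz).1, (hS z hz).2⟩
        · rw [sum_insert hyS, List.length_append, hlen]; omega
        · intro hh z hz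
          obtain ⟨a1, a2⟩ := hno hh
          rw [htk, hts] at hz
          rcases hz with hz | rfl
          · refine ⟨(h.cmp a1 z hz).1, fun hl => ?_⟩
            exact ((h.cmp a1 z hz).2 hl).imp id (fun q w hw => List.mem_append_left _ (q w hw))
          · exact ⟨a2, fun _ => Or.inr (fun w hw => List.mem_append_right _ hw)⟩
      · rw [if_neg hcap]
        refine ih _ _ _ ⟨h.len, hi, h.mem, h.wk, fun _ => ?_, ⟨Sv, ?_, hlen⟩, by simp⟩ (by omega)
        · by_contra hz
          have := hg.2 _ hx _ hz (insert y Sv) (by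
            intro z hz
            rcases mem_insert.1 hz with rfl | hz
            · exact ⟨⟨ly, hlt, hly, hla⟩, hnT⟩
            · exact (hS z hz).2)
          rw [sum_insert hyS] at this
          omega
        · intro z hz
          exact ⟨(hts z).2 (Or.inl (hS z hz).1), (hS z hz).2⟩
    · rw [if_neg hc]
      refine ih _ _ _ ⟨h.len, hi, h.mem, h.wk, hsnd, ⟨Sv, ?_, hlen⟩, ?_⟩ (by omega)
      · intro z hz
        exact ⟨(hts z).2 (Or.inl (hS z hz).1), (hS z hz).2⟩
      · intro hh z hz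
        obtain ⟨a1, a2⟩ := hno hh
        rcases (hts z).1 hz with hz | rfl
        · exact h.cmp a1 z hz
        · refine ⟨a2, fun hl => ?_⟩
          by_cases hm : z ∈ A.take i
          · exact (h.cmp a1 z hm).2 hl
          · have hf1 : f1 z = true := by
              by_contra hf1
              exact hc ⟨hl, hm, by simpa using hf1⟩
            exact Or.inl (hg.1 _ _ (Nat.mod_lt _ (by omega)) ((h1 z hyN).1 hf1))

theorem qry_spec (G : Gr) {L : ℕ} (hL : 2 ≤ L) (Lf : ℕ → List ℕ) (X : ℕ) : ∀ (j : ℕ) (d : Bool)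
    (idx : ℕ) (th : ℕ → ℕ), (∀ y, th y ≤ L) → Good G L Lf X j d idx th → ∀ x, x / L < G.N →
      (qry G L Lf X j d idx x = true → Hit G d th (x / L) (x % L)) ∧
      (HitIn G d (2 ^ j - 1) th (x / L) (x % L) → qry G L Lf X j d idx x = true) := by
  intro j
  induction j with
  | zero =>
    intro d idx th _ h x _
    have h0 := h (x / L) (x % L) (Nat.mod_lt _ (by omega))
    rw [Nat.div_add_mod'] at h0
    rw [qry, decide_eq_true_iff, h0]
    refine ⟨fun hh => ⟨0, _, Wk.nil _, hh⟩, ?_⟩
    rintro ⟨l, hl, a, hw, ha⟩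
    cases hw with
    | nil => exact ha
    | cons _ _ => simp at hl
  | succ j ih =>
    rintro d idx th hth ⟨th', hth', hg, g1, g2⟩ x hx
    rw [qry]
    have e : 2 ^ (j + 1) - 1 = 2 * (2 ^ j - 1) + 1 := by
      have := Nat.one_le_two_pow (n := j)
      rw [pow_succ]; omega
    rw [e]
    refine loop_spec hL hx hth hg (fun z hz => ?_) (ih _ _ _ hth g2) _ _ _ _
      ⟨by simp, by simp, by simp, ?_, by simp, ⟨∅, by simp, by simp⟩, by simp⟩ (by omega)
    · have hlt : L - 1 - z % L < L := by omega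
      have := ih _ _ _ hth' g1 (flp L z) (by rwa [flp, code_div hlt])
      rwa [flp, code_div hlt, code_mod hlt] at this
    · intro y hy
      rw [List.mem_singleton.1 hy]
      exact ⟨0, Wk.nil _, rfl⟩

end Pool.Agent.Lib.MP_a349b4_lc.DZ
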