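import Pool.Agent.Lib.MP_a349b4_lc.DZ.Gap

/-! The greedy choice of zero states in the order of their critical budgets; small leaves. -/

set_option autoImplicit false

namespace Pool.Agent.Lib.MP_a349b4_lc.DZ

open Finset

/-- State `(y, c)` is ruled out by some element of `T` at distance at most `t`. -/
def Cov (G : Gr) (d : Bool) (t : ℕ) (g : ℕ → ℕ) (T : Finset ℕ) (y c : ℕ) : Prop :=
  ∃ u ∈ T, ∃ l ≤ t, Wk G d l u y ∧ g u + l ≤ c

/-- The states not ruled out near the critical state of `u` have small weight. -/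
def Fine (G : Gr) (L X : ℕ) (d : Bool) (t : ℕ) (g : ℕ → ℕ) (T : Finset ℕ) (u : ℕ) : Prop :=
  ∀ S : Finset (ℕ × ℕ), (∀ p ∈ S, p.2 < L ∧ (∃ l ≤ t, Wk G d l u p.1 ∧ p.2 = g u + l) ∧
    ¬ Cov G d t g T p.1 p.2) → ∑ p ∈ S, (G.adj d p.1).length ≤ X

theorem exists_fine (G : Gr) (L X : ℕ) (d : Bool) (t : ℕ) (g : ℕ → ℕ) :
    ∃ T ⊆ range G.N, (∀ u < G.N, Fine G L X d t g T u) ∧
      T.card * (X + 1) ≤ (t + 1) * ∑ y ∈ range G.N, (G.adj d y).length := by
  classical
  let P : Finset ℕ → ℕ → ℕ → Prop := fun T y c =>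
    Cov G d t g T y c ∧ ∀ u ∈ T, ∀ l ≤ t, Wk G d l u y → c ≤ g u + t
  let B : Finset ℕ → Finset (ℕ × ℕ) := fun T =>
    (range G.N ×ˢ range L).filter (fun p => P T p.1 p.2)
  have hB : ∀ T, ∑ p ∈ B T, (G.adj d p.1).length ≤
      (t + 1) * ∑ y ∈ range G.N, (G.adj d y).length := by
    intro T
    rw [sum_filter, sum_product, mul_sum]
    refine sum_le_sum (fun y _ => ?_)
    rw [← sum_filter]
    dsimp only
    rw [sum_const, smul_eq_mul]
    refine Nat.mul_le_mul_right _ ?_
    rcases ((range L).filter (fun c => P T y c)).eq_empty_or_nonempty with h | h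
    · rw [h]; simp
    · obtain ⟨m, hm, hmin⟩ := exists_min_image _ id h
      obtain ⟨u, hu, l, hl, hw, hc⟩ := (mem_filter.1 hm).2.1
      have : (range L).filter (fun c => P T y c) ⊆ Icc m (m + t) := by
        intro c hc'
        have := (mem_filter.1 hc').2.2 u hu l hl hw
        exact mem_Icc.2 ⟨hmin c hc', by omega⟩
      have := card_le_card this
      rw [Nat.card_Icc] at this
      omega
  let C : Finset (Finset ℕ) := (range G.N).powerset.filter (fun T =>
    T.card * (X + 1) ≤ ∑ p ∈ B T, (G.adj d p.1).length ∧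
      ∀ u < G.N, ¬ Fine G L X d t g T u → ∀ w ∈ T, g w ≤ g u)
  obtain ⟨T, hT, hmax⟩ := exists_max_image C Finset.card ⟨∅, by simp [C]⟩
  simp only [C, mem_filter, mem_powerset] at hT
  refine ⟨T, hT.1, ?_, hT.2.1.trans (hB T)⟩
  by_contra hn
  have hne : ((range G.N).filter (fun u => ¬ Fine G L X d t g T u)).Nonempty := by
    push Not at hn
    obtain ⟨u, hu, h⟩ := hn
    exact ⟨u, mem_filter.2 ⟨mem_range.2 hu, h⟩⟩
  obtain ⟨u, hu, hmin⟩ := exists_min_image _ g hne
  obtain ⟨hu, hf⟩ := mem_filter.1 hu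
  have hu' := mem_range.1 hu
  have hge := hT.2.2 u hu' hf
  have hf' := hf
  simp only [Fine, not_forall, not_le] at hf'
  obtain ⟨S, hS, hlt⟩ := hf'
  have huT : u ∉ T := by
    intro huT
    have : S = ∅ := by
      refine eq_empty_of_forall_notMem (fun p hp => ?_)
      obtain ⟨-, ⟨l, hl, hw, hc⟩, hn⟩ := hS p hp
      exact hn ⟨u, huT, l, hl, hw, hc.ge⟩
    rw [this] at hlt
    simp at hlt
  have hdis : Disjoint (B T) S :=
    disjoint_left.2 (fun p hp hp' => (hS p hp').2.2 (mem_filter.1 hp).2.1)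
  have hsub : B T ∪ S ⊆ B (insert u T) := by
    intro p hp
    rcases mem_union.1 hp with hp | hp
    · obtain ⟨h1, ⟨w, hw, l, hl, h2, h3⟩, h4⟩ := mem_filter.1 hp
      refine mem_filter.2 ⟨h1, ⟨w, mem_insert_of_mem hw, l, hl, h2, h3⟩, fun w' hw' l' hl' h5 => ?_⟩
      rcases mem_insert.1 hw' with rfl | hw'
      · have := h4 w hw l hl h2
        have := hge w hw
        omega
      · exact h4 w' hw' l' hl' h5
    · obtain ⟨h0, ⟨l, hl, hw, hc⟩, hn⟩ := hS p hp
      refine mem_filter.2 ⟨mem_product.2 ⟨mem_range.2 (hw.lt hu'), mem_range.2 h0⟩,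
        ⟨u, mem_insert_self _ _, l, hl, hw, hc.ge⟩, fun w' hw' l' hl' h5 => ?_⟩
      rcases mem_insert.1 hw' with rfl | hw'
      · omega
      · by_contra h6
        exact hn ⟨w', hw', l', hl', h5, by omega⟩
  have h1 := sum_le_sum_of_subset (f := fun p : ℕ × ℕ => (G.adj d p.1).length) hsub
  rw [sum_union hdis] at h1
  have hmem : insert u T ∈ C := by
    simp only [C, mem_filter, mem_powerset]
    refine ⟨insert_subset hu hT.1, ?_, fun a ha hfa w hw => ?_⟩
    · rw [card_insert_of_notMem huT, add_mul]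
      have := hT.2.1
      omega
    · have hfa' : ¬ Fine G L X d t g T a := fun h => hfa (fun S' hS' => h S' (fun p hp =>
        ⟨(hS' p hp).1, (hS' p hp).2.1, fun ⟨w, hw, k⟩ =>
          (hS' p hp).2.2 ⟨w, mem_insert_of_mem hw, k⟩⟩))
      rcases mem_insert.1 hw with rfl | hw
      · exact hmin a (mem_filter.2 ⟨mem_range.2 ha, hfa'⟩)
      · exact hT.2.2 a ha hfa' w hw
  have := hmax _ hmem
  rw [card_insert_of_notMem huT] at this
  omega

theorem exists_greedy (G : Gr) {L : ℕ} (hL : 0 < L) (X : ℕ) (d : Bool) (t : ℕ) (th : ℕ → ℕ)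
    (hth : ∀ y, th y ≤ L) : ∃ T ⊆ range G.N, ∃ th' : ℕ → ℕ, (∀ y, th' y ≤ L) ∧
      (∀ y, 0 < th' y → y ∈ T) ∧ Greedy G L X d t th th' ∧
      T.card * (X + 1) ≤ (t + 1) * ∑ y ∈ range G.N, (G.adj d y).length := by
  classical
  have ex : ∀ u, ∃ a, ¬ Hit G d th u a := fun u => ⟨L, fun ⟨l, h, _, k⟩ => by
    have := hth h; omega⟩
  obtain ⟨T, hT, hf, hc⟩ := exists_fine G L X d t (fun u => Nat.find (ex u))
  refine ⟨T, hT, fun u => if u ∈ T then L - Nat.find (ex u) else 0, fun y => ?_, fun y hy => ?_,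
    ⟨?_, ?_⟩, hc⟩
  · dsimp only
    split_ifs <;> omega
  · by_contra hn
    simp [hn] at hy
  · rintro y c hc ⟨l, u, hw, hl⟩ ⟨l', h, hw', hl'⟩
    refine Nat.find_spec (ex u) ⟨l + l', h, hw.rev'.trans hw', ?_⟩
    dsimp only at hl
    split_ifs at hl <;> omega
  · intro u hu a ha Sv hS
    have hle : Nat.find (ex u) ≤ a := Nat.find_min' _ ha
    have hinj : Set.InjOn (fun z => (z / L, z % L - (a - Nat.find (ex u)))) (Sv : Set ℕ) := by
      intro z hz z' hz' h
      obtain ⟨⟨l, -, -, h1⟩, -⟩ := hS z hz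
      obtain ⟨⟨l', -, -, h2⟩, -⟩ := hS z' hz'
      obtain ⟨h3, h4⟩ := Prod.mk.inj h
      rw [← Nat.div_add_mod z L, ← Nat.div_add_mod z' L, h3]
      omega
    have := hf u hu (Sv.image (fun z => (z / L, z % L - (a - Nat.find (ex u))))) (by
      intro p hp
      obtain ⟨z, hz, rfl⟩ := mem_image.1 hp
      obtain ⟨⟨l, hl, hw, h1⟩, hn⟩ := hS z hz
      have hz' := Nat.mod_lt z hL
      refine ⟨by dsimp only; omega, ⟨l, hl, hw, by dsimp only; omega⟩, ?_⟩
      rintro ⟨w, hw', l', hl', h2, h3⟩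
      refine hn ⟨l', hl', w, h2.rev, ?_⟩
      dsimp only at h3 ⊢
      rw [if_pos hw']
      omega)
    rwa [sum_image hinj] at this

/-- Small sorted leaves exist. -/
theorem exists_leaves (G : Gr) {L : ℕ} (hL : 0 < L) (X M : ℕ)
    (hM : ∀ d, ∑ y ∈ range G.N, (G.adj d y).length ≤ M) :
    ∀ (j : ℕ) (d : Bool) (th : ℕ → ℕ) (S : Finset ℕ), S ⊆ range G.N → (∀ y, th y ≤ L) →
      (∀ y, 0 < th y → y ∈ S) → ∃ F : ℕ → List ℕ,
      (∀ i, (F i).Pairwise (· < ·) ∧ (F i).length ≤ G.N ∧ ∀ e ∈ F i, e < G.N * L) ∧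
      ∑ i ∈ range (2 ^ j), (F i).length ≤ S.card + (2 ^ j - 1) * (2 ^ j * M / (X + 1)) ∧
      ∀ (Lf : ℕ → List ℕ) (idx : ℕ), (∀ i < 2 ^ j, Lf (idx * 2 ^ j + i) = F i) →
        Good G L Lf X j d idx th := by
  intro j
  induction j with
  | zero =>
    intro d th S hS hth hp
    have hc : (((S.filter (fun y => 0 < th y)).image (fun y => y * L + (th y - 1))).sort
        (· ≤ ·)).length ≤ S.card := by
      rw [Finset.length_sort]
      exact card_image_le.trans (card_filter_le _ _)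
    refine ⟨fun _ => ((S.filter (fun y => 0 < th y)).image (fun y => y * L + (th y - 1))).sort
      (· ≤ ·), fun _ => ⟨(Finset.sortedLT_sort _).pairwise, ?_, ?_⟩, by simpa using hc, ?_⟩
    · exact hc.trans ((card_le_card hS).trans (card_range _).le)
    · intro e he
      obtain ⟨y, hy, rfl⟩ := mem_image.1 ((Finset.mem_sort _).1 he)
      have h1 := Nat.mul_le_mul_right L (Nat.succ_le_of_lt (mem_range.1 (hS (mem_filter.1 hy).1)))
      have := hth y
      rw [Nat.succ_mul] at h1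
      omega
    · intro Lf idx h y a ha
      have := h 0 (by simp)
      simp only [pow_zero, mul_one, add_zero] at this
      rw [this]
      have hy := hth y
      constructor
      · rintro ⟨e, he, h1, h2⟩
        obtain ⟨y', hy', rfl⟩ := mem_image.1 ((Finset.mem_sort _).1 he)
        have h3 := (mem_filter.1 hy').2
        have h4 := hth y'
        have h5 : (y' * L + (th y' - 1)) / L = y :=
          Nat.div_eq_of_lt_le (by omega) (by rw [Nat.succ_mul]; exact h2)
        rw [code_div (by omega)] at h5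
        subst h5
        omega
      · intro h1
        exact ⟨y * L + (th y - 1), (Finset.mem_sort _).2
          (mem_image.2 ⟨y, mem_filter.2 ⟨hp y (by omega), by omega⟩, rfl⟩), by omega, by omega⟩
  | succ j ih =>
    intro d th S hS hth hp
    obtain ⟨T, hT, th', hth', hp', hg, hc⟩ := exists_greedy G hL X d (2 ^ j - 1) th hth
    obtain ⟨F1, a1, a2, a3⟩ := ih (!d) th' T hT hth' hp'
    obtain ⟨F2, b1, b2, b3⟩ := ih d th S hS hth hp
    have p1 := Nat.one_le_two_pow (n := j)
    have hTc : T.card ≤ 2 ^ j * M / (X + 1) := (Nat.le_div_iff_mul_le (by omega)).2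
      (hc.trans (Nat.mul_le_mul (by omega) (hM d)))
    have e : 2 ^ (j + 1) = 2 ^ j + 2 ^ j := by rw [pow_succ]; omega
    have hq : 2 ^ j * M / (X + 1) ≤ 2 ^ (j + 1) * M / (X + 1) :=
      Nat.div_le_div_right (Nat.mul_le_mul_right _ (by omega))
    refine ⟨fun i => if i < 2 ^ j then F1 i else F2 (i - 2 ^ j), ?_, ?_, ?_⟩
    · intro i
      by_cases hi : i < 2 ^ j
      · simpa [hi] using a1 i
      · simpa [hi] using b1 (i - 2 ^ j)
    · generalize 2 ^ (j + 1) * M / (X + 1) = m' at hq ⊢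
      generalize 2 ^ j * M / (X + 1) = m at hq hTc a2 b2
      rw [e, sum_range_add]
      have s1 : ∑ i ∈ range (2 ^ j), (if i < 2 ^ j then F1 i else F2 (i - 2 ^ j)).length =
          ∑ i ∈ range (2 ^ j), (F1 i).length :=
        sum_congr rfl (fun i hi => by rw [if_pos (mem_range.1 hi)])
      have s2 : ∑ i ∈ range (2 ^ j),
          (if 2 ^ j + i < 2 ^ j then F1 (2 ^ j + i) else F2 (2 ^ j + i - 2 ^ j)).length =
          ∑ i ∈ range (2 ^ j), (F2 i).length :=
        sum_congr rfl (fun i _ => by rw [if_neg (by omega), Nat.add_sub_cancel_left])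
      rw [s1, s2]
      obtain ⟨q, hq'⟩ : ∃ q, 2 ^ j = q + 1 := ⟨2 ^ j - 1, by omega⟩
      rw [hq'] at a2 b2 ⊢
      have e2 : q + 1 + (q + 1) - 1 = q + q + 1 := by omega
      rw [e2, add_mul, add_mul, one_mul]
      simp only [Nat.add_sub_cancel] at a2 b2
      have := Nat.mul_le_mul_left q hq
      omega
    · intro Lf idx h
      refine ⟨th', hth', hg, a3 Lf _ (fun i hi => ?_), b3 Lf _ (fun i hi => ?_)⟩
      · have := h i (by omega)
        dsimp only at this
        rw [if_pos hi] at this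
        rw [← this, pow_succ]
        exact congrArg Lf (by ring)
      · have := h (2 ^ j + i) (by omega)
        dsimp only at this
        rw [if_neg (by omega), Nat.add_sub_cancel_left] at this
        rw [← this, pow_succ]
        exact congrArg Lf (by ring)

end Pool.Agent.Lib.MP_a349b4_lc.DZ
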