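import Pool.Agent.Lib.MP_a349b4_lc.GZ.MachA
import Pool.Agent.Lib.MP_a349b4_lc.DZ.Gap

/-! The data seen by the query program with budgets, and the search in a stored set. -/

set_option autoImplicit false

namespace Pool.Agent.Lib.MP_a349b4_lc.DZ

open Function LG
open GZ (tr_step tr_exit tr_wh sv rs tr_sv tr_rs sorted_getD mem_iff_getD)

structure Env where
  G : Gr
  L : ℕ
  Lf : ℕ → List ℕ
  X : ℕ
  J : ℕ
  Lg : ℕ
  w : ℕ
  B : ℕ
  D : List ℕ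
  off : ℕ → ℕ
  Fm : ℕ → List ℕ
  Nl : ℕ

structure Env.Ok (e : Env) : Prop where
  c1 : ∀ a ≤ 4 * e.Nl, e.D.getD a 0 = e.off a
  c2 : ∀ a < 4 * e.Nl, e.off (a + 1) = e.off a + (e.Fm a).length ∧
    ∀ q < (e.Fm a).length, e.D.getD (e.off a + q) 0 = (e.Fm a).getD q 0
  nl : e.G.N ≤ e.Nl
  l2 : 2 ≤ e.L
  fa : ∀ z < e.G.N, e.Fm (4 * z) = e.G.adj false z ∧ e.Fm (4 * z + 1) = e.G.adj true z
  f2 : e.Fm 2 = [e.X, 2 ^ e.J, e.L]
  fl : ∀ z < e.Nl, e.Fm (4 * z + 3) = e.Lf z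
  srt : ∀ z < e.Nl, (e.Lf z).Pairwise (· < ·) ∧ (e.Lf z).length < 2 ^ e.Lg
  b1 : e.off (4 * e.Nl) ≤ e.B
  b2 : 4 * e.Nl ≤ e.B
  b3 : 2 ^ e.J * (e.X + 20) ≤ e.B
  b4 : (e.G.N + e.L) * e.L ≤ e.B
  b5 : 4 * e.B < 2 ^ e.w

variable {e : Env}

theorem Env.Ok.off_le (h : e.Ok) {a : ℕ} (ha : a ≤ 4 * e.Nl) : e.off a ≤ e.B := by
  induction ha using Nat.decreasingInduction with
  | self => exact h.b1
  | of_succ k hk ih => have := (h.c2 k hk).1; omega

theorem Env.Ok.adj (h : e.Ok) (d : Bool) {z : ℕ} (hz : z < e.G.N) :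
    e.Fm (z * 4 + d.toNat) = e.G.adj d z := by
  rw [Nat.mul_comm]
  cases d
  exacts [(h.fa z hz).1, (h.fa z hz).2]

theorem Env.Ok.frame (h : e.Ok) {j : ℕ} (hj : j ≤ e.J) :
    2 ^ j * (e.X + 20) ≤ e.B ∧ e.X + 20 ≤ 2 ^ j * (e.X + 20) ∧ 2 ^ j ≤ 2 ^ j * (e.X + 20) ∧
      2 ^ j ≤ 2 ^ e.J :=
  have k : 2 ^ j ≤ 2 ^ e.J := Nat.pow_le_pow_right (by omega) hj
  ⟨(Nat.mul_le_mul_right _ k).trans h.b3, Nat.le_mul_of_pos_left _ (Nat.two_pow_pos j),
    Nat.le_mul_of_pos_right _ (by omega), k⟩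

theorem Env.Ok.bl (h : e.Ok) : e.G.N * e.L + e.L * e.L ≤ e.B ∧ e.L ≤ e.L * e.L :=
  ⟨by rw [← Nat.add_mul]; exact h.b4, Nat.le_mul_self _⟩

theorem Env.Ok.st (h : e.Ok) {z : ℕ} (hz : z / e.L < e.G.N) :
    z / e.L * e.L + e.L ≤ e.G.N * e.L ∧ z / e.L * e.L + z % e.L = z ∧ z % e.L < e.L :=
  ⟨by rw [← Nat.succ_mul]; exact Nat.mul_le_mul_right _ hz, Nat.div_add_mod' _ _,
    Nat.mod_lt _ (by have := h.l2; omega)⟩

theorem flip_mod {L a : ℕ} (h : a < L) : (a + 1) * (L - 1) % L = L - 1 - a ∧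
    (a + 1) * (L - 1) ≤ L * L := by
  obtain ⟨c, rfl⟩ := Nat.exists_eq_add_of_lt h
  refine ⟨?_, Nat.mul_le_mul (by omega) (by omega)⟩
  rw [show (a + 1) * (a + c + 1 - 1) = a * (a + c + 1) + c by rw [Nat.add_sub_cancel]; ring,
    code_mod (by omega)]
  omega

structure Glob (e : Env) (r : ℕ → ℕ) : Prop where
  g0 : r 0 = 0
  g1 : r 1 = 1
  g2 : r 2 = 2
  g3 : r 3 = e.L
  g4 : r 4 = e.L - 1
  g5 : r 5 = e.X + 2
  g6 : r 6 = e.X + 20
  g7 : r 7 = 2 ^ e.J + 1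

theorem Glob.frame {r r' : ℕ → ℕ} (h : Glob e r) (hf : ∀ j < 8, r' j = r j) : Glob e r' := by
  constructor <;> rw [hf _ (by omega)]
  exacts [h.g0, h.g1, h.g2, h.g3, h.g4, h.g5, h.g6, h.g7]

def bsBody : Cmd :=
  .seq (.bin .add 27 25 26) <| .seq (.bin .div 27 27 2) <| .seq (.load 28 27) <|
  .ite 28 13 (.seq (.bin .add 25 27 1) .skip) <|
  .ite 28 22 (.seq (.const 10 1) <| .seq (.bin .add 26 25 0) .skip) <|
  .seq (.bin .add 26 27 0) .skip

def leaf : Cmd :=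
  .seq (.bin .div 22 13 3) <| .seq (.bin .mul 22 22 3) <| .seq (.bin .add 22 22 3) <|
  .seq (.bin .mul 21 12 2) <| .seq (.bin .add 21 21 1) <| .seq (.bin .mul 21 21 2) <|
  .seq (.bin .add 21 21 1) <| .seq (.load 25 21) <|
  .seq (.bin .add 21 21 1) <| .seq (.load 26 21) <| .seq (.const 10 0) <|
  .seq (.loop 25 26 bsBody) <| .seq (.bin .mul 8 8 2) <| .seq (.const 9 2) .skip

theorem leaf_spec (he : e.Ok) {r W : ℕ → ℕ} (hG : Glob e r) {idx x : ℕ} (h8 : r 8 = 1)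
    (h12 : r 12 = idx) (h13 : r 13 = x) (hi : idx < e.Nl) (hx : x / e.L < e.G.N) :
    Tr e.w e.D leaf r W (fun r' W' => W' = W ∧ Glob e r' ∧ r' 8 = 2 ∧ r' 9 = 2 ∧
      r' 10 = (decide (∃ a ∈ e.Lf idx, x ≤ a ∧ a < x / e.L * e.L + e.L)).toNat)
      (2 + (e.Lg * (9 + 2) + 2) + 11) := by
  have b2 := he.b2
  have b5 := he.b5
  have b6 := (he.frame (Nat.zero_le _)).1
  have b7 := he.bl
  have b8 := he.st hx
  have b9 := he.nl
  obtain ⟨s1, s2⟩ := he.srt idx hi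
  obtain ⟨c1, c2⟩ := he.c2 (4 * idx + 3) (by omega)
  have o1 := he.off_le (a := 4 * idx + 3 + 1) (by omega)
  rw [he.fl idx hi] at c1 c2
  obtain ⟨l, hl⟩ : ∃ l, e.Lf idx = l := ⟨_, rfl⟩
  obtain ⟨o, ho⟩ : ∃ o, e.off (4 * idx + 3) = o := ⟨_, rfl⟩
  rw [hl] at s1 s2 c1 c2 ⊢
  rw [ho] at c1 c2
  refine Tr.bin (x / e.L) (by simp [Op.ev, h13, hG.g3]) (by omega) ?_
  refine Tr.bin (x / e.L * e.L) (by simp [Op.ev, hG.g3]) (by omega) ?_
  refine Tr.bin (x / e.L * e.L + e.L) (by simp [Op.ev, hG.g3]) (by omega) ?_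
  obtain ⟨u, hu⟩ : ∃ u, x / e.L * e.L + e.L = u := ⟨_, rfl⟩
  rw [hu]
  refine Tr.bin (idx * 2) (by simp [Op.ev, h12, hG.g2]) (by omega) ?_
  refine Tr.bin (idx * 2 + 1) (by simp [Op.ev, hG.g1]) (by omega) ?_
  refine Tr.bin (4 * idx + 2) (by simp [Op.ev, hG.g2]; omega) (by omega) ?_
  refine Tr.bin (4 * idx + 3) (by simp [Op.ev, hG.g1]) (by omega) ?_
  refine Tr.load o (by simpa [ho] using he.c1 (4 * idx + 3) (by omega)) ?_
  refine Tr.bin (4 * idx + 3 + 1) (by simp [Op.ev, hG.g1]) (by omega) ?_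
  refine Tr.load (o + l.length) (by simpa [c1] using he.c1 (4 * idx + 3 + 1) (by omega)) ?_
  refine Tr.const (by omega) ?_
  refine Tr.seq (Q' := fun r' W' => W' = W ∧ (∀ j < 10, r' j = r j) ∧
    r' 10 = (decide (∃ a ∈ l, x ≤ a ∧ a < u)).toNat) (tr_wh (t := 9) (fun m r' W' => W' = W ∧
      (∀ j < 14, j ≠ 10 → r' j = r j) ∧ r' 22 = u ∧ ∃ lo hi, r' 25 = o + lo ∧ r' 26 = o + hi ∧
        hi ≤ l.length ∧ hi < lo + 2 ^ m ∧ (r' 10 = 1 ∧ (∃ a ∈ l, x ≤ a ∧ a < u) ∧ hi ≤ lo ∨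
          r' 10 = 0 ∧ ∀ q < l.length, x ≤ l.getD q 0 ∧ l.getD q 0 < u → lo ≤ q ∧ q < hi))
          ?_ ?_ ?_ _ _ _ ?_) ?_
  · rintro m r' W' ⟨rfl, hf, k22, lo, hi, p1, p2, p3, p4, p5⟩ hc
    have G := hG.frame fun j hj => hf j (by omega) (by omega)
    have k13 := (hf 13 (by omega) (by omega)).trans h13
    have hm := Nat.two_pow_pos m
    rw [pow_succ] at p4
    obtain ⟨p5, p6⟩ := p5.resolve_left (by omega)
    obtain ⟨md, hmd⟩ : ∃ md, md = (lo + hi) / 2 := ⟨_, rfl⟩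
    refine Tr.le (t' := 2 + 2 + 2 + 3) ?_ le_rfl
    refine Tr.bin (o + lo + (o + hi)) (by simp [Op.ev, p1, p2]) (by omega) ?_
    refine Tr.bin (o + md) (by simp [Op.ev, G.g2]; omega) (by omega) ?_
    refine Tr.load (l.getD md 0) (by simpa using c2 md (by omega)) ?_
    refine Tr.ite (fun h => Tr.le (t' := 0 + 1) ?_ (by omega)) fun h =>
      Tr.ite (fun h' => ?_) fun h' => Tr.le (t' := 0 + 1) ?_ (by omega)
    · refine Tr.bin (o + (md + 1)) (by simp [Op.ev, G.g1, Nat.add_assoc]) (by omega) ?_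
      refine Tr.skip ⟨rfl, fun j h1 h2 => ?_, by simp [k22], md + 1, hi, by simp, by simp [p2], p3,
        by omega, Or.inr ⟨by simp [p5], fun q h1 h2 => ⟨?_, (p6 q h1 h2).2⟩⟩⟩
      · simp (disch := omega) only [update_of_ne]
        exact hf j h1 h2
      · have h' : l.getD md 0 < x := by simpa [k13] using h
        by_contra hq
        rcases (show q = md ∨ q < md by omega) with rfl | hq
        · omega
        · have := sorted_getD s1 hq (by omega)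
          omega
    · refine Tr.const (by omega) ?_
      refine Tr.bin (o + lo) (by simp [Op.ev, G.g0, p1]) (by omega) ?_
      refine Tr.skip ⟨rfl, fun j h1 h2 => ?_, by simp [k22], lo, lo, by simp [p1], by simp,
        by omega, by omega, Or.inl ⟨by simp, ⟨_, mem_iff_getD.2 ⟨md, by omega, rfl⟩, ?_, ?_⟩,
          le_rfl⟩⟩
      · simp (disch := omega) only [update_of_ne]
        exact hf j h1 h2
      · simpa [k13] using h
      · simpa [k22] using h'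
    · refine Tr.bin (o + md) (by simp [Op.ev, G.g0]) (by omega) ?_
      refine Tr.skip ⟨rfl, fun j h1 h2 => ?_, by simp [k22], lo, md, by simp [p1], by simp,
        by omega, by omega, Or.inr ⟨by simp [p5], fun q h1 h2 => ⟨(p6 q h1 h2).1, ?_⟩⟩⟩
      · simp (disch := omega) only [update_of_ne]
        exact hf j h1 h2
      · have h'' : u ≤ l.getD md 0 := by simpa [k22] using h'
        by_contra hq
        rcases (show q = md ∨ md < q by omega) with rfl | hq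
        · omega
        · have := sorted_getD s1 hq h1
          omega
  · rintro r' W' ⟨-, -, -, lo, hi, p1, p2, -, p4, -⟩
    omega
  · rintro m r' W' ⟨rfl, hf, -, lo, hi, p1, p2, -, -, p5⟩ hc
    refine ⟨rfl, fun j hj => hf j (by omega) (by omega), ?_⟩
    rcases p5 with ⟨p5, p6, -⟩ | ⟨p5, p6⟩
    · rw [p5, decide_eq_true p6]; rfl
    · have : ¬ ∃ a ∈ l, x ≤ a ∧ a < u := fun ⟨a, k, k'⟩ => by
        obtain ⟨q, k1, rfl⟩ := mem_iff_getD.1 k
        have := p6 q k1 k'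
        omega
      rw [p5, decide_eq_false this]; rfl
  · refine ⟨rfl, fun j h1 h2 => ?_, by simp, 0, l.length, by simp, by simp, le_rfl, by omega,
      Or.inr ⟨by simp, fun q h1 _ => ⟨Nat.zero_le _, h1⟩⟩⟩
    simp (disch := omega) only [update_of_ne]
  rintro r' W' ⟨rfl, hf, p⟩
  have G := hG.frame fun j hj => hf j (by omega)
  refine Tr.bin 2 (by simp [Op.ev, G.g2, hf 8 (by omega), h8]) (by omega) ?_
  refine Tr.const (by omega) (Tr.skip ⟨rfl, G.frame fun j hj => ?_, by simp, by simp, ?_⟩)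
  · simp (disch := omega) only [update_of_ne]
  · rw [update_of_ne (by omega), update_of_ne (by omega), p]

end Pool.Agent.Lib.MP_a349b4_lc.DZ
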