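import Pool.Agent.Lib.MP_a349b4_lc.DZ.MachA

/-! One step of the scan of the work list. -/

set_option autoImplicit false

namespace Pool.Agent.Lib.MP_a349b4_lc.DZ

open Function LG
open GZ (tr_step tr_exit tr_wh sv rs tr_sv tr_rs sorted_getD mem_iff_getD)

variable {e : Env}

def dupBody : Cmd :=
  .seq (.read 26 25) <| .seq (.bin .add 25 25 1) <|
  .ite 26 13 .skip (.ite 13 26 .skip (.seq (.const 23 1) .skip))

theorem dup_spec (he : e.Ok) {r W : ℕ → ℕ} (hG : Glob e r) {a i y : ℕ} (h25 : r 25 = a)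
    (h15 : r 15 = a + i) (h13 : r 13 = y) (hB : a + i ≤ 2 * e.B) (h1 : 1 ≤ e.B) :
    Tr e.w e.D (.loop 25 15 dupBody) r W (fun r' W' => W' = W ∧
      (∀ j < 25, j ≠ 23 → r' j = r j) ∧ (0 < r' 23 ↔ 0 < r 23 ∨ ∃ q < i, W (a + q) = y))
      (i * (7 + 2) + 2) := by
  have b5 := he.b5
  refine (Tr.loop (fun m r' W' => W' = W ∧ (∀ j < 25, j ≠ 23 → r' j = r j) ∧ r' 25 = a + m ∧
    (0 < r' 23 ↔ 0 < r 23 ∨ ∃ q < m, W (a + q) = y)) i ?_ ?_ ?_).imp
    fun r' W' h => ⟨h.1, h.2.1, h.2.2.2⟩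
  · rintro m r' W' hm ⟨rfl, hf, p1, p2⟩
    have G := hG.frame fun j hj => hf j (by omega) (by omega)
    have k15 := (hf 15 (by omega) (by omega)).trans h15
    have k13 := (hf 13 (by omega) (by omega)).trans h13
    refine ⟨by omega, Tr.read (W' (a + m)) (by rw [p1]) ?_⟩
    refine Tr.bin (a + (m + 1)) (by simp [Op.ev, p1, G.g1, Nat.add_assoc]) (by omega) ?_
    have ne : W' (a + m) ≠ y → W' = W' ∧ (∀ j < 25, j ≠ 23 →
        update (update r' 26 (W' (a + m))) 25 (a + (m + 1)) j = r j) ∧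
        update (update r' 26 (W' (a + m))) 25 (a + (m + 1)) 25 = a + (m + 1) ∧
        (0 < update (update r' 26 (W' (a + m))) 25 (a + (m + 1)) 23 ↔
          0 < r 23 ∨ ∃ q < m + 1, W' (a + q) = y) := fun h => by
      refine ⟨rfl, fun j h1 h2 => ?_, by simp, ?_⟩
      · simp (disch := omega) only [update_of_ne]
        exact hf j h1 h2
      · rw [Nat.exists_lt_succ_right, or_iff_left h, ← p2]
        simp
    refine Tr.ite (fun h => Tr.skip (ne ?_)) fun h => Tr.ite (fun h' => Tr.skip (ne ?_))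
      fun h' => Tr.const (by omega) (Tr.skip (t := 0) ⟨rfl, fun j h1 h2 => ?_, by simp, ?_⟩)
    · have : W' (a + m) < y := by simpa [k13] using h
      omega
    · have : y < W' (a + m) := by simpa [k13] using h'
      omega
    · simp (disch := omega) only [update_of_ne]
      exact hf j h1 h2
    · have h1 : y ≤ W' (a + m) := by simpa [k13] using h
      have h2 : W' (a + m) ≤ y := by simpa [k13] using h'
      simpa using Or.inr ⟨m, by omega, by omega⟩
  · rintro r' W' ⟨-, hf, p1, -⟩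
    rw [p1, hf _ (by omega) (by omega), h15]
    omega
  · exact ⟨rfl, fun _ _ _ => rfl, h25, by simp⟩

def cpBody : Cmd :=
  .seq (.load 27 25) <| .seq (.bin .mul 27 27 3) <| .seq (.bin .add 27 27 22) <|
  .seq (.write 16 27) <| .seq (.bin .add 16 16 1) <|
  .seq (.bin .add 25 25 1) .skip

theorem cp_spec (he : e.Ok) {r W : ℕ → ℕ} (hG : Glob e r) {o b c : ℕ} {l : List ℕ} (h25 : r 25 = o)
    (h22 : r 22 = c) (hc : c ≤ e.L) (hl : ∀ z ∈ l, z < e.G.N)
    (h26 : r 26 = o + l.length) (h16 : r 16 = b) (hB : b + l.length ≤ 2 * e.B)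
    (ho : o + l.length ≤ e.B) (hD : ∀ q < l.length, e.D.getD (o + q) 0 = l.getD q 0) :
    Tr e.w e.D (.loop 25 26 cpBody) r W (fun r' W' => (∀ j < 25, j ≠ 16 → r' j = r j) ∧
      r' 16 = b + l.length ∧ (∀ q < l.length, W' (b + q) = l.getD q 0 * e.L + c) ∧
      ∀ a, a < b ∨ b + l.length ≤ a → W' a = W a) (l.length * (6 + 2) + 2) := by
  have b5 := he.b5
  have b7 := he.bl
  refine (Tr.loop (fun m r' W' => (∀ j < 27, j ≠ 16 → j ≠ 25 → r' j = r j) ∧ r' 25 = o + m ∧
    r' 16 = b + m ∧ (∀ q < m, W' (b + q) = l.getD q 0 * e.L + c) ∧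
      ∀ a, a < b ∨ b + m ≤ a → W' a = W a) l.length ?_ ?_ ?_).imp
    fun r' W' h => ⟨fun j h1 h2 => h.1 j (by omega) h2 (by omega), h.2.2⟩
  · rintro m r' W' hm ⟨hf, p1, p2, p3, p4⟩
    have G := hG.frame fun j hj => hf j (by omega) (by omega) (by omega)
    have k26 := (hf 26 (by omega) (by omega) (by omega)).trans h26
    refine ⟨by omega, Tr.load (l.getD m 0) (by rw [p1, hD m hm]) ?_⟩
    have k22 := (hf 22 (by omega) (by omega) (by omega)).trans h22
    have k1 : l.getD m 0 * e.L ≤ e.G.N * e.L :=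
      Nat.mul_le_mul_right _ (hl _ (mem_iff_getD.2 ⟨m, hm, rfl⟩)).le
    refine Tr.bin (l.getD m 0 * e.L) (by simp [Op.ev, G.g3]) (by omega) ?_
    refine Tr.bin (l.getD m 0 * e.L + c) (by simp [Op.ev, k22]) (by omega) ?_
    refine Tr.write (b + m) (l.getD m 0 * e.L + c) (by simp [p2]) (by simp) ?_
    refine Tr.bin (b + (m + 1)) (by simp [Op.ev, p2, G.g1, Nat.add_assoc]) (by omega) ?_
    refine Tr.bin (o + (m + 1)) (by simp [Op.ev, p1, G.g1, Nat.add_assoc]) (by omega) ?_
    refine Tr.skip (t := 0) ⟨fun j h1 h2 h3 => ?_, by simp, by simp, fun q hq => ?_, fun a ha => ?_⟩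
    · simp (disch := omega) only [update_of_ne]
      exact hf j h1 h2 h3
    · rcases Nat.lt_succ_iff_lt_or_eq.1 hq with hq | rfl
      · rw [update_of_ne (by omega), p3 q hq]
      · rw [update_self]
    · rw [update_of_ne (by omega), p4 a (by omega)]
  · rintro r' W' ⟨hf, p1, -⟩
    rw [p1, hf _ (by omega) (by omega) (by omega), h26]
    omega
  · exact ⟨fun _ _ _ _ => rfl, h25, h16, fun _ h => by omega, fun _ _ => rfl⟩

/-- The state of the scan at level `j`. -/
structure Mst (e : Env) (j : ℕ) (d : Bool) (idx lim i : ℕ) (L : List ℕ) (a : Bool)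
    (r W : ℕ → ℕ) : Prop where
  gl : Glob e r
  s8 : r 8 = 2 ^ j
  s11 : r 11 = d.toNat
  s12 : r 12 = idx
  s14 : r 14 = lim + 1
  s15 : r 15 = 2 ^ j * (e.X + 20) + 9 + i
  s16 : r 16 = 2 ^ j * (e.X + 20) + 9 + L.length
  s17 : r 17 = a.toNat
  mem : ∀ q < L.length, W (2 ^ j * (e.X + 20) + 9 + q) = L.getD q 0
  len : L.length ≤ e.X + 1
  lt : ∀ z ∈ L, z / e.L < e.G.N
  lm : lim + 2 ≤ e.L

def expand : Cmd :=
  .seq (.bin .add 22 22 1) <| .seq (.bin .add 21 21 11) <| .seq (.load 25 21) <| .seq (.bin .add 21 21 1) <|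
  .seq (.load 26 21) <| .seq (.bin .add 27 16 26) <| .seq (.bin .add 28 24 25) <|
  .seq (.bin .add 28 28 5) <| .ite 27 28 (.loop 25 26 cpBody) (.seq (.const 17 1) .skip)

theorem expand_spec (he : e.Ok) {j d idx lim i L a} {r W : ℕ → ℕ} (hj : j ≤ e.J)
    (h : Mst e j d idx lim i L a r W) {y c : ℕ} (hy : y < e.G.N) (h21 : r 21 = y * 4)
    (h22 : r 22 = c) (hcl : c ≤ lim)
    (h24 : r 24 = 2 ^ j * (e.X + 20) + 9) :
    Tr e.w e.D expand r W (fun r' W' => r' 9 = r 9 ∧
      (∀ x, 2 ^ j * (e.X + 20) + (e.X + 20) ≤ x → W' x = W x) ∧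
      if L.length + ((e.G.adj d y).map fun z => z * e.L + (c + 1)).length ≤ e.X + 1 then
        Mst e j d idx lim i (L ++ (e.G.adj d y).map fun z => z * e.L + (c + 1)) a r' W'
      else Mst e j d idx lim i L true r' W') ((e.X + 1) * (6 + 2) + 2 + 2 + 8) := by
  have b7 := he.bl
  have b9 := he.nl
  have b2 := he.b2
  have b5 := he.b5
  obtain ⟨f1, f2, -, -⟩ := he.frame hj
  have G := h.gl
  have d1 := Bool.toNat_le d
  obtain ⟨c1, c2⟩ := he.c2 (y * 4 + d.toNat) (by omega)
  have o1 := he.off_le (a := y * 4 + d.toNat + 1) (by omega)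
  have hlt := fun z => e.G.lt d y z
  rw [he.adj d hy] at c1 c2
  obtain ⟨l, hl⟩ : ∃ l, e.G.adj d y = l := ⟨_, rfl⟩
  obtain ⟨o, ho⟩ : ∃ o, e.off (y * 4 + d.toNat) = o := ⟨_, rfl⟩
  obtain ⟨gl, s8, s11, s12, s14, s15, s16, s17, mem, len, lt, lm⟩ := h
  rw [hl] at c1 c2 hlt ⊢
  rw [ho] at c1 c2
  rw [List.length_map]
  refine Tr.bin (c + 1) (by simp [Op.ev, h22, G.g1]) (by omega) ?_
  refine Tr.bin (y * 4 + d.toNat) (by simp [Op.ev, h21, s11]) (by omega) ?_
  refine Tr.load o (by simpa [ho] using he.c1 (y * 4 + d.toNat) (by omega)) ?_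
  refine Tr.bin (y * 4 + d.toNat + 1) (by simp [Op.ev, G.g1]) (by omega) ?_
  refine Tr.load (o + l.length) (by simpa [c1] using he.c1 (y * 4 + d.toNat + 1) (by omega)) ?_
  refine Tr.bin (2 ^ j * (e.X + 20) + 9 + L.length + (o + l.length)) (by simp [Op.ev, s16])
    (by omega) ?_
  refine Tr.bin (2 ^ j * (e.X + 20) + 9 + o) (by simp [Op.ev, h24]) (by omega) ?_
  refine Tr.bin (2 ^ j * (e.X + 20) + 9 + o + (e.X + 2)) (by simp [Op.ev, G.g5]) (by omega) ?_
  refine Tr.ite (fun hc => ?_) fun hc => ?_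
  · have hc' : L.length + l.length ≤ e.X + 1 := by
      simp at hc
      omega
    refine ((cp_spec he (G.frame fun j hj => ?_) (o := o) (l := l) (c := c + 1) (by simp)
      (by simp) (by omega) hlt (by simp)
      (b := 2 ^ j * (e.X + 20) + 9 + L.length) (by simp [s16]) (by omega) (by omega) c2).imp
      ?_).le (by gcongr; omega)
    · simp (disch := omega) only [update_of_ne]
    rintro r' W' ⟨p1, p2, p3, p4⟩
    have hf : ∀ j < 21, j ≠ 16 → r' j = r j := fun j h1 h2 => by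
      rw [p1 j (by omega) h2]
      simp (disch := omega) only [update_of_ne]
    rw [if_pos hc']
    refine ⟨hf 9 (by omega) (by omega), fun x hx => p4 x (by omega),
      G.frame fun j hj => hf j (by omega) (by omega), ?_, ?_, ?_, ?_, ?_, ?_, ?_, fun q hq => ?_,
      by simpa using hc', fun z hz => (List.mem_append.1 hz).elim (lt z) fun hz => ?_, lm⟩
    all_goals try rwa [hf _ (by omega) (by omega)]
    · rw [p2, List.length_append, List.length_map, Nat.add_assoc]
    · rw [List.length_append, List.length_map] at hq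
      by_cases k : q < L.length
      · rw [p4 _ (by omega), mem q k, List.getD_append _ _ _ _ k]
      · obtain ⟨q, rfl⟩ := Nat.exists_eq_add_of_le (not_lt.1 k)
        have hq' : q < l.length := by omega
        rw [List.getD_append_right _ _ _ _ (by omega), ← Nat.add_assoc, p3 _ hq',
          Nat.add_sub_cancel_left, List.getD_eq_getElem _ _ hq',
          List.getD_eq_getElem _ _ (by simpa using hq'), List.getElem_map]
    · obtain ⟨z', hz', rfl⟩ := List.mem_map.1 hz
      rw [code_div (by omega)]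
      exact hlt z' hz'
  · have hc' : ¬ L.length + l.length ≤ e.X + 1 := by
      simp at hc
      omega
    refine (Tr.const (by omega) (Tr.skip (t := 0) ?_)).le (by omega)
    rw [if_neg hc']
    refine ⟨by simp, fun _ _ => rfl, G.frame fun j hj => ?_, by simpa using s8,
      by simpa using s11, by simpa using s12, by simpa using s14, by simpa using s15,
      by simpa using s16, by simp, mem, len, lt, lm⟩
    simp (disch := omega) only [update_of_ne]

def proc : Cmd :=
  .seq (.bin .div 21 13 3) <| .seq (.bin .mul 21 21 2) <| .seq (.bin .mul 21 21 2) <|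
  .seq (.bin .mod 22 13 3) <| .seq (.bin .add 23 18 0) <|
  .seq (.const 24 9) <| .seq (.bin .mul 25 8 6) <| .seq (.bin .add 24 24 25) <|
  .seq (.bin .add 25 24 0) <| .seq (.loop 25 15 dupBody) <| .seq (.bin .add 15 15 1) <|
  .seq (.const 9 1) <| .seq (.bin .add 17 17 10) <| .seq (.bin .add 17 17 1) <|
  .seq (.bin .div 17 17 2) <| .ite 22 14 (.ite 0 23 .skip expand) .skip

theorem proc_spec (he : e.Ok) {j d idx lim i L a} {r W : ℕ → ℕ} (hj : j ≤ e.J)
    (h : Mst e j d idx lim i L a r W) (hi : i < L.length) (f1 f2 : ℕ → Bool)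
    (h13 : r 13 = L.getD i 0) (h18 : r 18 = (f1 (L.getD i 0)).toNat)
    (h10 : r 10 = (f2 (L.getD i 0)).toNat) :
    Tr e.w e.D proc r W (fun r' W' => r' 9 = 1 ∧
      (∀ x, 2 ^ j * (e.X + 20) + (e.X + 20) ≤ x → W' x = W x) ∧ ∃ L' a',
        Mst e j d idx lim (i + 1) L' a' r' W' ∧ ∀ fuel,
          loop f1 f2 (nx e.G e.L d) (· % e.L) lim e.X (fuel + 1) i L a =
            loop f1 f2 (nx e.G e.L d) (· % e.L) lim e.X fuel (i + 1) L' a') (17 * e.X + 60) := by
  have b7 := he.bl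
  have b9 := he.nl
  have b2 := he.b2
  have b5 := he.b5
  obtain ⟨q1, q2, -, -⟩ := he.frame hj
  have d1 := Bool.toNat_le d
  obtain ⟨G, s8, s11, s12, s14, s15, s16, s17, mem, len, lt, lm⟩ := h
  have hl : ∀ fuel, loop f1 f2 (nx e.G e.L d) (· % e.L) lim e.X (fuel + 1) i L a = _ :=
    fun fuel => by rw [loop, if_pos hi]
  have hy : L.getD i 0 / e.L < e.G.N := lt _ (mem_iff_getD.2 ⟨i, hi, rfl⟩)
  obtain ⟨y, hy'⟩ : ∃ y, L.getD i 0 = y := ⟨_, rfl⟩
  rw [hy'] at hl hy h13 h18 h10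
  have o1 := he.st hy
  have t1 := Bool.toNat_le (f1 y)
  have t2 := Bool.toNat_le (f2 y)
  have t3 := Bool.toNat_le a
  refine Tr.le (t' := (e.X + 1) * (6 + 2) + 2 + 2 + 8 + 2 + 2 + 5 + (i * (7 + 2) + 2) + 9) ?_
    (by omega)
  refine Tr.bin (y / e.L) (by simp [Op.ev, h13, G.g3]) (by omega) ?_
  refine Tr.bin (y / e.L * 2) (by simp [Op.ev, G.g2]) (by omega) ?_
  refine Tr.bin (y / e.L * 4) (by simp [Op.ev, G.g2]; omega) (by omega) ?_
  refine Tr.bin (y % e.L) (by simp [Op.ev, h13, G.g3]) (by omega) ?_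
  refine Tr.bin (f1 y).toNat (by simp [Op.ev, h18, G.g0]) (by omega) ?_
  refine Tr.const (by omega) ?_
  refine Tr.bin (2 ^ j * (e.X + 20)) (by simp [Op.ev, s8, G.g6]) (by omega) ?_
  refine Tr.bin (2 ^ j * (e.X + 20) + 9) (by simp [Op.ev, Nat.add_comm]) (by omega) ?_
  refine Tr.bin (2 ^ j * (e.X + 20) + 9) (by simp [Op.ev, G.g0]) (by omega) ?_
  refine Tr.seq (dup_spec he (G.frame fun j hj => ?_) (a := 2 ^ j * (e.X + 20) + 9) (i := i)
    (y := y) (by simp) (by simp [s15]) (by simp [h13]) (by omega) (by omega)) ?_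
  · simp (disch := omega) only [update_of_ne]
  rintro r' W' ⟨rfl, p1, p2⟩
  have hf : ∀ j < 21, r' j = r j := fun j h1 => by
    rw [p1 j (by omega) (by omega)]
    simp (disch := omega) only [update_of_ne]
  have k21 : r' 21 = y / e.L * 4 := by simpa using p1 21 (by omega) (by omega)
  have k22 : r' 22 = y % e.L := by simpa using p1 22 (by omega) (by omega)
  have k24 : r' 24 = 2 ^ j * (e.X + 20) + 9 := by simpa using p1 24 (by omega) (by omega)
  have k23 : 0 < r' 23 ↔ ¬ (y ∉ L.take i ∧ f1 y = false) := by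
    have : y ∈ L.take i ↔ ∃ q < i, W' (2 ^ j * (e.X + 20) + 9 + q) = y := by
      rw [mem_iff_getD, List.length_take, min_eq_left hi.le]
      refine exists_congr fun q => and_congr_right fun hq => ?_
      rw [mem q (by omega), List.getD_eq_getElem?_getD, List.getD_eq_getElem?_getD,
        List.getElem?_take_of_lt hq]
    rw [p2, ← this]
    cases f1 y <;> simp
  have G' := G.frame fun j hj => hf j (by omega)
  refine Tr.bin (2 ^ j * (e.X + 20) + 9 + (i + 1))
    (by simp [Op.ev, hf 15 (by omega), s15, G'.g1, Nat.add_assoc]) (by omega) ?_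
  refine Tr.const (by omega) ?_
  refine Tr.bin (a.toNat + (f2 y).toNat)
    (by simp [Op.ev, hf 17 (by omega), hf 10 (by omega), s17, h10]) (by omega) ?_
  refine Tr.bin (a.toNat + (f2 y).toNat + 1) (by simp [Op.ev, G'.g1]) (by omega) ?_
  refine Tr.bin (a || f2 y).toNat
    (by cases a <;> cases f2 y <;> simp [Op.ev, G'.g2]) ((Bool.toNat_le _).trans_lt (by omega)) ?_
  generalize hr : update (update (update (update (update r' 15 _) 9 1) 17 _) 17 _) 17 _ = r2
  have S : Mst e j d idx lim (i + 1) L (a || f2 y) r2 W' := by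
    subst hr
    refine ⟨G'.frame fun j hj => ?_, ?_, ?_, ?_, ?_, by simp, ?_, by simp, mem, len, lt, lm⟩
    · simp (disch := omega) only [update_of_ne]
    all_goals
      simp (disch := omega) only [update_of_ne]
      rwa [hf _ (by omega)]
  have m9 : r2 9 = 1 := by simp [← hr]
  have m22 : r2 22 = y % e.L := by simp [← hr, k22]
  have m23 : r2 23 = r' 23 := by simp [← hr]
  refine Tr.ite (fun c1 => Tr.ite (fun c2 => Tr.skip ?_) fun c2 => ?_) fun c1 => Tr.skip ?_
  · rw [S.gl.g0, m23, k23] at c2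
    exact ⟨m9, fun _ _ => rfl, L, _, S, fun fuel => by rw [hl, if_neg fun k => c2 k.2]⟩
  · rw [S.gl.g0, m23, k23, not_not] at c2
    rw [m22, S.s14] at c1
    refine (expand_spec he hj S hy (by simp [← hr, k21]) m22 (by omega)
      (by simp [← hr, k24])).imp ?_
    rintro r3 W3 ⟨a1, a2, a3⟩
    refine ⟨a1.trans m9, a2, ?_⟩
    split_ifs at a3 with c3
    · exact ⟨_, _, a3, fun fuel => by rw [hl, if_pos ⟨by omega, c2⟩, nx, if_pos c3]⟩
    · exact ⟨_, _, a3, fun fuel => by rw [hl, if_pos ⟨by omega, c2⟩, nx, if_neg c3]⟩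
  · rw [m22, S.s14] at c1
    exact ⟨m9, fun _ _ => rfl, L, _, S, fun fuel => by rw [hl, if_neg fun k => c1 (Nat.lt_succ_of_le k.1)]⟩

end Pool.Agent.Lib.MP_a349b4_lc.DZ
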