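import Pool.Agent.Lib.MP_a349b4_lc.DZ.Main
import Pool.Agent.Lib.MP_a349b4_lc.DZ.MachC

/-! The query program meets the interface used for the final bounds. -/

set_option autoImplicit false

namespace Pool.Agent.Lib.MP_a349b4_lc.DZ

open Pool.Agent.Lib.MP_a349b4_lc.LG

theorem machStmt : MachStmt := by
  refine ⟨prog, 100, fun G L Lf X J Lg w Nl D off Fm B c1 c2 fm f2 srt nl l2 b1 b2 b3 b4 b5
    u v k W hu hv hk => ?_⟩
  refine run_mono (mach (e := ⟨G, L, Lf, X, J, Lg, w, B, D, off, Fm, Nl⟩)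
    ⟨c1, c2, nl, l2, fun z hz => ⟨(fm z (hz.trans_le nl)).1, (fm z (hz.trans_le nl)).2.1⟩, f2,
      fun z hz => (fm z hz).2.2, fun z hz => ⟨(srt z hz).1, (srt z hz).2.1⟩, b1, b2, b3, b4,
      by change 4 * B < 2 ^ w; omega⟩ hu hv hk W) ?_
  change (100 * (X + 2)) ^ (J + 1) * (Lg + 1) + 30 ≤ _
  have : 0 < (100 * (X + 2)) ^ (J + 1) * (Lg + 1) := by positivity
  rw [Nat.mul_assoc]
  omega

end Pool.Agent.Lib.MP_a349b4_lc.DZ
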