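import Pool.Agent.Lib.MP_a349b4_lc.DZ.Top
import Pool.Agent.Lib.MP_a349b4_lc.DZ.Csr
import Pool.Agent.Lib.MP_a349b4_lc.DZ.Defs
import Pool.Agent.Lib.MP_a349b4_lc.LG.Comp

/-! The memory image, its size, and the final bounds. -/

set_option autoImplicit false

namespace Pool.Agent.Lib.MP_a349b4_lc.DZ

open Finset Pool.Agent.Lib.MP_a349b4_lc.LG

def MachStmt : Prop := ∃ (P : List Instr) (C : ℕ), ∀ (G : Gr) (L : ℕ) (Lf : ℕ → List ℕ)
    (X J Lg w Nl : ℕ) (D : List ℕ) (off : ℕ → ℕ) (Fm : ℕ → List ℕ) (B : ℕ),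
    (∀ a ≤ 4 * Nl, D.getD a 0 = off a) →
    (∀ a < 4 * Nl, off (a + 1) = off a + (Fm a).length ∧
      ∀ q < (Fm a).length, D.getD (off a + q) 0 = (Fm a).getD q 0) →
    (∀ z < Nl, Fm (4 * z) = G.adj false z ∧ Fm (4 * z + 1) = G.adj true z ∧
      Fm (4 * z + 3) = Lf z) → Fm 2 = [X, 2 ^ J, L] →
    (∀ z < Nl, (Lf z).Pairwise (· < ·) ∧ (Lf z).length < 2 ^ Lg ∧ ∀ e ∈ Lf z, e < G.N * L) →
    G.N ≤ Nl → 2 ≤ L → off (4 * Nl) ≤ B → 4 * Nl ≤ B → 2 ^ J * (X + 20) ≤ B →
    (G.N + L) * L ≤ B → C * B < 2 ^ w →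
    ∀ (u v k : ℕ) (W : ℕ → ℕ), u < G.N → (v + 1) * 2 ^ J ≤ Nl → k < L →
      run P w D (C * (C * (X + 2)) ^ (J + 1) * (Lg + 1)) 0
        (fun i => if i = 0 then u else if i = 1 then v else if i = 2 then k else 0) W =
          some (qry G L Lf X J true v (u * L + (L - 1 - k)))

/-- The lists stored for each slot. -/
def fam (G : Gr) (L : ℕ) (Lf : ℕ → List ℕ) (X J a : ℕ) : List ℕ :=
  if a % 4 = 0 then G.adj false (a / 4) else if a % 4 = 1 then G.adj true (a / 4)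
  else if a % 4 = 2 then (if a = 2 then [X, 2 ^ J, L] else []) else Lf (a / 4)

theorem fam_eq (G : Gr) (L : ℕ) (Lf : ℕ → List ℕ) (X J z : ℕ) :
    fam G L Lf X J (4 * z) = G.adj false z ∧ fam G L Lf X J (4 * z + 1) = G.adj true z ∧
      fam G L Lf X J (4 * z + 3) = Lf z := by
  have a0 : 4 * z % 4 = 0 := by omega
  have a1 : (4 * z + 1) % 4 = 1 := by omega
  have a3 : (4 * z + 3) % 4 = 3 := by omega
  have b0 : 4 * z / 4 = z := by omega
  have b1 : (4 * z + 1) / 4 = z := by omega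
  have b3 : (4 * z + 3) / 4 = z := by omega
  simp [fam, a0, a1, a3, b0, b1, b3]

theorem fam_sum (G : Gr) (L : ℕ) (Lf : ℕ → List ℕ) (X J N : ℕ) :
    ∑ a ∈ range (4 * N), (fam G L Lf X J a).length ≤ ∑ z ∈ range N, (G.adj false z).length +
      ∑ z ∈ range N, (G.adj true z).length + 3 * N + ∑ z ∈ range N, (Lf z).length := by
  induction N with
  | zero => simp
  | succ N ih =>
    obtain ⟨a0, a1, a3⟩ := fam_eq G L Lf X J N
    have a2 : (fam G L Lf X J (4 * N + 2)).length ≤ 3 := by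
      rw [fam, if_neg (by omega), if_neg (by omega), if_pos (by omega)]
      split_ifs <;> simp
    rw [show 4 * (N + 1) = 4 * N + 3 + 1 by omega, sum_range_succ, sum_range_succ, sum_range_succ,
      sum_range_succ, a0, a1, a3, sum_range_succ, sum_range_succ, sum_range_succ]
    omega

theorem main_of (hm : MachStmt) : ∃ (P : List Instr) (C : ℕ), ∀ (n K i j w : ℕ)
    (E : Finset (Fin n × Fin n)), i = min j (Nat.log 2 K + 1) → 2 ^ (i + j) ≤ n →
    C * (n + E.card + K) ^ 2 ≤ 2 ^ w →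
    ∃ D : List ℕ, AnswersUpTo P w K E D
        (2 ^ ((2 * i + j + C) * (i + 1)) * (Nat.log 2 n + 1)) ∧
      D.length * 2 ^ j ≤ C * (n * (n + E.card)) := by
  obtain ⟨P, C, H⟩ := hm
  refine ⟨P, 30 * C + 30, fun n K i j w E hi hn hw => ?_⟩
  obtain ⟨m, hmE⟩ : ∃ m, m = n + E.card := ⟨_, rfl⟩
  obtain ⟨X, hX⟩ : ∃ X, X = 2 ^ (2 * i + j) := ⟨_, rfl⟩
  obtain ⟨Lf, l1, l2, l3⟩ := exists_family E K i X
  obtain ⟨D, off, d1, d2, d3, d4, d5⟩ := exists_csr (fam (gr E) (K + 2) Lf X i) (4 * (n * 2 ^ i))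
  have g0 := gr_deg E (n * 2 ^ i) false
  have g1 := gr_deg E (n * 2 ^ i) true
  have g2 := fam_sum (gr E) (K + 2) Lf X i (n * 2 ^ i)
  rw [← hmE] at hw ⊢
  have hij : i ≤ j := by omega
  obtain ⟨a, ha⟩ : ∃ a, a = 2 ^ i := ⟨_, rfl⟩
  obtain ⟨b, hb⟩ : ∃ b, b = 2 ^ j := ⟨_, rfl⟩
  obtain ⟨M, hM⟩ : ∃ M, M = m + K := ⟨_, rfl⟩
  have a1 : 1 ≤ a := ha ▸ Nat.one_le_two_pow
  have ab : a ≤ b := by rw [ha, hb]; exact Nat.pow_le_pow_right (by omega) hij
  have hab : a * b ≤ n := by rwa [ha, hb, ← pow_add]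
  have hXe : X = a * a * b := by
    rw [hX, ha, hb, ← pow_add, ← pow_add]; exact congrArg _ (by omega)
  have nm : n ≤ m := by omega
  have bn : b ≤ n := (Nat.le_mul_of_pos_left _ a1).trans hab
  have n1 : 1 ≤ n := by omega
  have s1 : (if K < 2 ^ i then 0 else n / 2 ^ i) * b ≤ n := by
    split_ifs with h
    · omega
    · have := Nat.lt_pow_succ_log_self (b := 2) (by omega) K
      have e : i = j := by
        rcases Nat.le_total j (Nat.log 2 K + 1) with h1 | h1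
        · rw [hi, min_eq_left h1]
        · rw [hi, min_eq_right h1] at h; exact absurd this h
      rw [e, hb]
      exact Nat.div_mul_le_self _ _
  have s2 : a * (a * E.card / (X + 1)) * b ≤ m := by
    have h1 := Nat.div_mul_le_self (a * E.card) (X + 1)
    have h2 : a * (a * (a * E.card / (X + 1)) * b) ≤ a * E.card :=
      calc a * (a * (a * E.card / (X + 1)) * b) = a * E.card / (X + 1) * X := by rw [hXe]; ring
        _ ≤ a * E.card / (X + 1) * (X + 1) := Nat.mul_le_mul_left _ (by omega)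
        _ ≤ _ := h1
    exact (Nat.le_of_mul_le_mul_left h2 a1).trans (by omega)
  obtain ⟨s, hs⟩ : ∃ s, s = (if K < 2 ^ i then 0 else n / 2 ^ i) := ⟨_, rfl⟩
  rw [← hs] at s1 l2
  rw [← ha] at d1 d2 d5 g0 g1 g2 l2
  have hsz : off (4 * (n * a)) * b ≤ 14 * (n * m) := by
    have t0 : off (4 * (n * a)) ≤
        7 * (n * a) + 1 + 2 * m + n * (s + 1 + a * (a * E.card / (X + 1))) := by omega
    have t1 : n * a * b ≤ n * m := by
      rw [Nat.mul_assoc]; exact Nat.mul_le_mul_left _ (by omega)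
    have t2 : m * b ≤ n * m := by
      rw [Nat.mul_comm]; exact Nat.mul_le_mul_right _ bn
    have t3 : n * (s * b + b + a * (a * E.card / (X + 1)) * b) ≤ n * (3 * m) :=
      Nat.mul_le_mul_left _ (by omega)
    have t4 : b ≤ n * m := bn.trans (Nat.le_mul_of_pos_right _ (by omega))
    calc _ ≤ (7 * (n * a) + 1 + 2 * m + n * (s + 1 + a * (a * E.card / (X + 1)))) * b :=
          Nat.mul_le_mul_right _ t0
      _ = 7 * (n * a * b) + b + 2 * (m * b) +
          n * (s * b + b + a * (a * E.card / (X + 1)) * b) := by ring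
      _ ≤ 7 * (n * m) + n * m + 2 * (n * m) + n * (3 * m) := by omega
      _ ≤ _ := by rw [Nat.mul_left_comm n 3]; omega
  have mm : n * m ≤ M * M := Nat.mul_le_mul (by omega) (by omega)
  have m1 : M ≤ M * M := Nat.le_mul_self M
  have an : n * a ≤ M * M := Nat.mul_le_mul (by omega) (by omega)
  have hoff : off (4 * (n * a)) ≤ 14 * (M * M) :=
    (Nat.le_mul_of_pos_right _ (by omega)).trans (hsz.trans (by omega))
  have aX : a * X ≤ M * M := by
    calc a * X = a * a * (a * b) := by rw [hXe]; ring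
      _ ≤ a * b * (a * b) := Nat.mul_le_mul_right _ (Nat.mul_le_mul_left _ ab)
      _ ≤ M * M := Nat.mul_le_mul (by omega) (by omega)
  have X1 : X ≤ a * X := Nat.le_mul_of_pos_left _ a1
  have hLL : (n + (K + 2)) * (K + 2) ≤ 9 * (M * M) := by
    calc _ ≤ (3 * M) * (3 * M) := Nat.mul_le_mul (by omega) (by omega)
      _ = _ := by ring
  have hw' : (C + 1) * (21 * (M * M)) < 2 ^ w := by
    have : (30 * C + 30) * (m + K) ^ 2 = 30 * (C * (M * M)) + 30 * (M * M) := by rw [hM]; ring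
    have : (C + 1) * (21 * (M * M)) = 21 * (C * (M * M)) + 21 * (M * M) := by ring
    omega
  have hw1 : 21 * (M * M) < 2 ^ w := (Nat.le_mul_of_pos_left _ (Nat.succ_pos C)).trans_lt hw'
  have hlog := Nat.lt_pow_succ_log_self (b := 2) (by omega) n
  have na : n ≤ n * a := Nat.le_mul_of_pos_right _ a1
  refine ⟨D, ⟨fun x hx => ?_, fun u v k W hk => ⟨_, run_mono (H (gr E) (K + 2) Lf X i
    (Nat.log 2 n + 1) w (n * 2 ^ i) D off _ (21 * (M * M)) d3 d4 (fun z _ => fam_eq _ _ _ _ _ z)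
    (by simp [fam]) (fun z _ => ⟨(l1 z).1, (l1 z).2.1.trans_lt hlog, (l1 z).2.2⟩) (ha ▸ na)
    (by omega) (ha ▸ hoff.trans (by omega)) ?_ ?_ (hLL.trans (by omega))
    ((Nat.mul_le_mul_right _ (Nat.le_succ C)).trans_lt hw') u v k W u.2
    (Nat.mul_le_mul_right _ v.2) (by omega)) ?_, l3 u v k hk⟩⟩, ?_⟩
  · rcases d5 x hx with h | ⟨c, hc, h⟩
    · omega
    · rw [Nat.add_mul] at hLL
      unfold fam at h
      split_ifs at h
      · have : x < n := (gr E).lt _ _ _ h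
        omega
      · have : x < n := (gr E).lt _ _ _ h
        omega
      · simp only [List.mem_cons, List.not_mem_nil, or_false] at h
        rw [← ha] at h
        rcases h with h | h | h <;> omega
      · simp at h
      · have := (l1 _).2.2 x h
        omega
  · rw [← ha]; omega
  · rw [← ha, Nat.mul_add]; omega
  · have c1 : C ≤ 2 ^ C := Nat.lt_two_pow_self.le
    have c2 : X + 2 ≤ 2 ^ (2 * i + j + 2) := by
      have := Nat.one_le_two_pow (n := 2 * i + j)
      rw [pow_add _ _ 2, ← hX]; omega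
    have c3 : C * (X + 2) ≤ 2 ^ (2 * i + j + 2 + C) := by
      rw [pow_add _ _ C, Nat.mul_comm]; exact Nat.mul_le_mul c2 c1
    have c4 : (C * (X + 2)) ^ (i + 1) ≤ 2 ^ ((2 * i + j + 2 + C) * (i + 1)) := by
      rw [pow_mul]; exact Nat.pow_le_pow_left c3 _
    calc C * (C * (X + 2)) ^ (i + 1) * (Nat.log 2 n + 1 + 1)
        ≤ 2 ^ C * 2 ^ ((2 * i + j + 2 + C) * (i + 1)) * (2 * (Nat.log 2 n + 1)) :=
          Nat.mul_le_mul (Nat.mul_le_mul c1 c4) (by omega)
      _ = 2 ^ (C + (2 * i + j + 2 + C) * (i + 1) + 1) * (Nat.log 2 n + 1) := by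
          rw [pow_succ, pow_add]; ring
      _ ≤ _ := by
          refine Nat.mul_le_mul_right _ (Nat.pow_le_pow_right (by omega) ?_)
          nlinarith [Nat.zero_le (C * i), Nat.zero_le i]
  · rw [d1, ← hb]
    exact hsz.trans (Nat.mul_le_mul_right _ (by omega))

end Pool.Agent.Lib.MP_a349b4_lc.DZ
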