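import Pool.Agent.Lib.MP_a349b4_lc.DZ.Greedy
import Pool.Agent.Lib.MP_a349b4_lc.LG.Defs

/-! The graph, the distance levels of the roots, and the family of all stored sets. -/

set_option autoImplicit false

namespace Pool.Agent.Lib.MP_a349b4_lc.DZ

open Finset

theorem Wk.split {G : Gr} {d : Bool} {l x z : ℕ} (h : Wk G d l x z) :
    ∀ i ≤ l, ∃ y, Wk G d i x y ∧ Wk G d (l - i) y z := by
  induction h with
  | nil x =>
    intro i hi
    obtain rfl : i = 0 := by omega
    exact ⟨x, Wk.nil x, Wk.nil x⟩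
  | @cons l x y z h1 h2 ih =>
    intro i hi
    cases i with
    | zero => exact ⟨x, Wk.nil x, Wk.cons h1 h2⟩
    | succ i =>
      obtain ⟨a, a1, a2⟩ := ih i (by omega)
      refine ⟨a, Wk.cons h1 a1, ?_⟩
      rwa [Nat.add_sub_add_right]

theorem cover_levels (G : Gr) (K q : ℕ) (hq : 0 < q) {v : ℕ} (hv : v < G.N) :
    ∃ H ⊆ range G.N, H.card ≤ (if K < q then 0 else G.N / q) + 1 ∧
      ∀ u < G.N, ∀ l ≤ K, Wk G true l u v →
        ∃ h ∈ H, ∃ i ≤ q - 1, ∃ e, i + e ≤ l ∧ Wk G true i u h ∧ Wk G true e h v := by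
  classical
  by_cases hk : K < q
  · exact ⟨{v}, by simpa using hv, by simp, fun u _ l hl h =>
      ⟨v, mem_singleton_self v, l, by omega, 0, le_rfl, h, Wk.nil v⟩⟩
  rw [if_neg hk]
  let dd : ℕ → ℕ := fun x => if h : ∃ l, Wk G true l x v then Nat.find h else 0
  have hsum : ∑ r ∈ range q, ((range G.N).filter (fun x => dd x % q = r)).card = G.N := by
    rw [← card_eq_sum_card_fiberwise (f := fun x => dd x % q) (s := range G.N) (t := range q)]
    · simp
    · intro x _
      exact mem_coe.2 (mem_range.2 (Nat.mod_lt _ hq))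
  obtain ⟨r, hr, hc⟩ : ∃ r ∈ range q,
      ((range G.N).filter (fun x => dd x % q = r)).card ≤ G.N / q := by
    by_contra hn
    push Not at hn
    have := card_nsmul_le_sum (range q)
      (fun r => ((range G.N).filter (fun x => dd x % q = r)).card) (G.N / q + 1)
      (fun r hr => hn r hr)
    rw [hsum, card_range, smul_eq_mul] at this
    have h2 := Nat.lt_mul_div_succ G.N hq
    omega
  refine ⟨insert v ((range G.N).filter (fun x => dd x % q = r)),
    insert_subset (mem_range.2 hv) (filter_subset _ _), (card_insert_le _ _).trans (by omega),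
    fun u hu l _ hw => ?_⟩
  have ex : ∃ l, Wk G true l u v := ⟨l, hw⟩
  have hD : Nat.find ex ≤ l := Nat.find_min' ex hw
  have hS := Nat.find_spec ex
  by_cases hlt : Nat.find ex < q
  · exact ⟨v, mem_insert_self _ _, Nat.find ex, by omega, 0, hD, hS, Wk.nil v⟩
  · have hr' := mem_range.1 hr
    have hi : (Nat.find ex - r) % q < q := Nat.mod_lt _ hq
    obtain ⟨y, y1, y2⟩ := hS.split ((Nat.find ex - r) % q) (by omega)
    refine ⟨y, mem_insert_of_mem (mem_filter.2 ⟨mem_range.2 (y1.lt hu), ?_⟩), _, by omega, _,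
      by omega, y1, y2⟩
    have ey : ∃ l, Wk G true l y v := ⟨_, y2⟩
    have b1 : Nat.find ey ≤ Nat.find ex - (Nat.find ex - r) % q := Nat.find_min' ey y2
    have b2 := Nat.find_min' ex (y1.trans (Nat.find_spec ey))
    have b3 := Nat.div_add_mod (Nat.find ex - r) q
    have b4 : dd y = r + q * ((Nat.find ex - r) / q) := by
      simp only [dd, dif_pos ey]
      omega
    rw [b4, Nat.add_mul_mod_self_left, Nat.mod_eq_of_lt hr']

theorem exists_target (G : Gr) (K q L : ℕ) (hq : 0 < q) {v : ℕ} (hv : v < G.N) :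
    ∃ S ⊆ range G.N, S.card ≤ (if K < q then 0 else G.N / q) + 1 ∧ ∃ th : ℕ → ℕ,
      (∀ y, th y ≤ L) ∧ (∀ y, 0 < th y → y ∈ S) ∧ ∀ u < G.N, ∀ k ≤ K, k < L →
        (Hit G true th u (L - 1 - k) → ∃ l ≤ k, Wk G true l u v) ∧
        ((∃ l ≤ k, Wk G true l u v) → HitIn G true (q - 1) th u (L - 1 - k)) := by
  classical
  obtain ⟨H, h0, h1, h2⟩ := cover_levels G K q hq hv
  refine ⟨H, h0, h1, fun h => if h ∈ H then
    Nat.findGreatest (fun s => ∃ e, e + s ≤ L ∧ Wk G true e h v) L else 0, fun y => ?_,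
    fun y hy => ?_, fun u hu k hk hkL => ⟨?_, ?_⟩⟩
  · dsimp only
    split_ifs
    · exact Nat.findGreatest_le _
    · omega
  · by_contra hn
    simp [hn] at hy
  · rintro ⟨l, h, hw, hl⟩
    dsimp only at hl
    split_ifs at hl
    · obtain ⟨e, he, hw'⟩ := Nat.findGreatest_of_ne_zero
        (P := fun s => ∃ e, e + s ≤ L ∧ Wk G true e h v) (n := L) rfl (by omega)
      exact ⟨l + e, by omega, hw.trans hw'⟩
    · omega
  · rintro ⟨l, hl, hw⟩
    obtain ⟨h, hh, i, hi, e, he, s1, s2⟩ := h2 u hu l (by omega) hw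
    refine ⟨i, hi, h, s1, ?_⟩
    dsimp only
    rw [if_pos hh]
    have : L - e ≤ Nat.findGreatest (fun s => ∃ e, e + s ≤ L ∧ Wk G true e h v) L :=
      Nat.le_findGreatest (by omega) ⟨e, by omega, s2⟩
    omega

variable {n : ℕ}

noncomputable def nbr (E : Finset (Fin n × Fin n)) : Bool → ℕ → List ℕ
  | true, a => ((E.filter (fun e => (e.1 : ℕ) = a)).image (fun e => (e.2 : ℕ))).toList
  | false, a => ((E.filter (fun e => (e.2 : ℕ) = a)).image (fun e => (e.1 : ℕ))).toList

theorem mem_nbr_t {E : Finset (Fin n × Fin n)} {a b : ℕ} :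
    b ∈ nbr E true a ↔ ∃ e ∈ E, (e.1 : ℕ) = a ∧ (e.2 : ℕ) = b := by
  simp only [nbr, mem_toList, mem_image, mem_filter, and_assoc]

theorem mem_nbr_f {E : Finset (Fin n × Fin n)} {a b : ℕ} :
    b ∈ nbr E false a ↔ ∃ e ∈ E, (e.2 : ℕ) = a ∧ (e.1 : ℕ) = b := by
  simp only [nbr, mem_toList, mem_image, mem_filter, and_assoc]

/-- The graph with both adjacency lists. -/
noncomputable def gr (E : Finset (Fin n × Fin n)) : Gr where
  N := n
  adj := nbr E
  lt := by
    intro d a b h
    cases d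
    · obtain ⟨e, -, -, rfl⟩ := mem_nbr_f.1 h
      exact e.1.2
    · obtain ⟨e, -, -, rfl⟩ := mem_nbr_t.1 h
      exact e.2.2
  symm := by
    intro d a b h
    cases d
    · obtain ⟨e, h1, h2, h3⟩ := mem_nbr_f.1 h
      exact mem_nbr_t.2 ⟨e, h1, h3, h2⟩
    · obtain ⟨e, h1, h2, h3⟩ := mem_nbr_t.1 h
      exact mem_nbr_f.2 ⟨e, h1, h3, h2⟩

theorem fib_le {α : Type} (S : Finset α) (f g : α → ℕ) (N : ℕ) :
    ∑ a ∈ range N, ((S.filter (fun e => f e = a)).image g).toList.length ≤ S.card := by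
  refine le_trans (sum_le_sum (fun a _ => ?_))
    ((sum_card_fiberwise_eq_card_filter S (range N) f).le.trans (card_filter_le _ _))
  rw [length_toList]
  exact card_image_le

theorem gr_deg (E : Finset (Fin n × Fin n)) (N : ℕ) (d : Bool) :
    ∑ y ∈ range N, ((gr E).adj d y).length ≤ E.card := by
  cases d
  · exact fib_le _ _ _ _
  · exact fib_le _ _ _ _

theorem reach_iff {E : Finset (Fin n × Fin n)} {k : ℕ} {u v : Fin n} :
    LG.Reach E k u v ↔ ∃ l ≤ k, Wk (gr E) true l u v := by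
  refine exists_congr fun l => and_congr_right fun _ => ⟨?_, fun h => ?_⟩
  · rintro ⟨p, h0, h1, hp⟩
    have : ∀ i ≤ l, Wk (gr E) true i u (p i) := by
      intro i
      induction i with
      | zero => intro _; rw [h0]; exact Wk.nil _
      | succ i ih =>
        intro hi
        exact (ih (by omega)).snoc (mem_nbr_t.2 ⟨_, hp i (by omega), rfl, rfl⟩)
    exact h1 ▸ this l le_rfl
  · have : ∀ l a b, Wk (gr E) true l a b → ∀ u v : Fin n, (u : ℕ) = a → (v : ℕ) = b →
        ∃ p : ℕ → Fin n, p 0 = u ∧ p l = v ∧ ∀ i < l, (p i, p (i + 1)) ∈ E := by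
      intro l a b h
      induction h with
      | nil x =>
        intro u v h1 h2
        exact ⟨fun _ => u, rfl, Fin.ext (h1.trans h2.symm), fun i hi => by omega⟩
      | cons h1 _ ih =>
        intro u v h2 h3
        obtain ⟨e, e1, e2, e3⟩ := mem_nbr_t.1 h1
        obtain ⟨p, p0, p1, p2⟩ := ih e.2 v e3 h3
        refine ⟨fun i => Nat.casesOn i u p, rfl, p1, fun i hi => ?_⟩
        cases i with
        | zero =>
          have : u = e.1 := Fin.ext (h2.trans e2.symm)
          simpa [p0, this] using e1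
        | succ i => exact p2 i (by omega)
    exact this _ _ _ h u v rfl rfl

theorem sum_blocks (f : ℕ → ℕ) (q c : ℕ) :
    ∀ m, (∀ a < m, ∑ i ∈ range q, f (a * q + i) ≤ c) → ∑ z ∈ range (m * q), f z ≤ m * c := by
  intro m
  induction m with
  | zero => simp
  | succ m ih =>
    intro h
    rw [Nat.succ_mul, sum_range_add, Nat.succ_mul]
    exact Nat.add_le_add (ih (fun a ha => h a (by omega))) (h m (by omega))

/-- All stored sets, with their total size, and the meaning of the query. -/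
theorem exists_family (E : Finset (Fin n × Fin n)) (K j X : ℕ) : ∃ Lf : ℕ → List ℕ,
    (∀ z, (Lf z).Pairwise (· < ·) ∧ (Lf z).length ≤ n ∧ ∀ e ∈ Lf z, e < n * (K + 2)) ∧
    ∑ z ∈ range (n * 2 ^ j), (Lf z).length ≤
      n * ((if K < 2 ^ j then 0 else n / 2 ^ j) + 1 + 2 ^ j * (2 ^ j * E.card / (X + 1))) ∧
    ∀ (u v : Fin n), ∀ k ≤ K,
      (qry (gr E) (K + 2) Lf X j true v (u * (K + 2) + (K + 2 - 1 - k)) = true ↔
        LG.Reach E k u v) := by
  have hq : 0 < 2 ^ j := Nat.two_pow_pos j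
  choose S s1 s2 th t1 t2 t3 using fun v : Fin n =>
    exists_target (gr E) K (2 ^ j) (K + 2) hq (v := v) v.2
  choose F f1 f2 f3 using fun v : Fin n => exists_leaves (gr E) (L := K + 2) (by omega) X _
    (gr_deg E _) j true (th v) (S v) (s1 v) (t1 v) (t2 v)
  let Lf : ℕ → List ℕ := fun z => if h : z / 2 ^ j < n then F ⟨_, h⟩ (z % 2 ^ j) else []
  have hL : ∀ (v : Fin n), ∀ i < 2 ^ j, Lf (v * 2 ^ j + i) = F v i := by
    intro v i hi
    simp only [Lf, code_div hi, code_mod hi, dif_pos v.2]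
  refine ⟨Lf, fun z => ?_, ?_, fun u v k hk => ?_⟩
  · by_cases h : z / 2 ^ j < n
    · simp only [Lf, dif_pos h]
      exact f1 _ _
    · simp [Lf, dif_neg h]
  · refine sum_blocks (fun z => (Lf z).length) _ _ n (fun a ha => ?_)
    rw [sum_congr rfl (fun i hi => congrArg List.length (hL ⟨a, ha⟩ i (mem_range.1 hi)))]
    refine (f2 ⟨a, ha⟩).trans (Nat.add_le_add (s2 _) (Nat.mul_le_mul_right _ (by omega)))
  · have hlt : K + 2 - 1 - k < K + 2 := by omega
    have := qry_spec (gr E) (L := K + 2) (by omega) Lf X j true v _ (t1 v) (f3 v Lf v (hL v))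
      (u * (K + 2) + (K + 2 - 1 - k)) (by rw [code_div hlt]; exact u.2)
    rw [code_div hlt, code_mod hlt] at this
    have h3 := t3 v u u.2 k hk (by omega)
    rw [reach_iff]
    exact ⟨fun h => h3.1 (this.1 h), fun h => this.2 (h3.2 h)⟩

end Pool.Agent.Lib.MP_a349b4_lc.DZ
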